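import Mathlib

/-!
# A frequently hypercyclic shift operator which is not Devaney chaotic
-/

namespace Pool.Agent.Results.MP_7d5718_an.ShiftNotChaotic

open Filter Topology
open scoped ENNReal

/-- The set `A` of natural numbers has positive lower density. -/
def PosLowerDensity (A : Set ℕ) : Prop :=
  ∃ δ : ℝ, 0 < δ ∧ ∃ N₀ : ℕ, ∀ N : ℕ, N₀ ≤ N →
    δ * (N : ℝ) ≤ (({n : ℕ | n < N ∧ n ∈ A}.ncard : ℕ) : ℝ)

section Defs

variable {𝕜 Y : Type} [RCLike 𝕜] [NormedAddCommGroup Y] [NormedSpace 𝕜 Y]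

/-- `T` is hypercyclic. -/
def Hypercyclic (T : Y →L[𝕜] Y) : Prop := ∃ x, Dense (Set.range fun n : ℕ => (T ^ n) x)

/-- `T` is Devaney chaotic: hypercyclic with a dense set of periodic points. -/
def DevaneyChaotic (T : Y →L[𝕜] Y) : Prop :=
  Hypercyclic T ∧ Dense {x : Y | ∃ k : ℕ, 1 ≤ k ∧ (T ^ k) x = x}

/-- `T` is frequently hypercyclic. -/
def FrequentlyHypercyclic (T : Y →L[𝕜] Y) : Prop :=
  ∃ x, ∀ U : Set Y, IsOpen U → U.Nonempty → PosLowerDensity {n : ℕ | (T ^ n) x ∈ U}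

end Defs

/-- The Banach space `ℓ^p(ℤ; V)`. -/
def SeqSp (V : Type) [NormedAddCommGroup V] (p : ℝ≥0∞) : Type := lp (fun _ : ℤ => V) p

section SeqSp

variable {𝕜 V : Type} [RCLike 𝕜] [NormedAddCommGroup V] [NormedSpace 𝕜 V] {p : ℝ≥0∞}

/-- The coordinate number `n` of a vector of `ℓ^p(ℤ; V)`. -/
def SeqSp.coord (x : SeqSp V p) (n : ℤ) : V := (show lp (fun _ : ℤ => V) p from x) n

noncomputable instance instSeqSpGroup [Fact (1 ≤ p)] : NormedAddCommGroup (SeqSp V p) :=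
  lp.normedAddCommGroup (E := fun _ : ℤ => V) (p := p)

noncomputable instance instSeqSpSpace [Fact (1 ≤ p)] : NormedSpace 𝕜 (SeqSp V p) :=
  lp.instNormedSpace (E := fun _ : ℤ => V) (p := p)

/-- `σ` is the shift operator of `ℓ^p(ℤ; V)` generated by the invertible operators `S n`:
`(x n) ↦ (S (n + 1) (x (n + 1)))`. -/
def IsShift [Fact (1 ≤ p)] (S : ℤ → V ≃L[𝕜] V) (σ : SeqSp V p →L[𝕜] SeqSp V p) : Prop :=
  ∀ (x : SeqSp V p) (n : ℤ), (σ x).coord n = S (n + 1) (x.coord (n + 1))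

end SeqSp

/-! ### The ruler sequence -/

/-- Two-adic valuation. -/
noncomputable def v (i : ℕ) : ℕ := padicValNat 2 i

/-- The time at which the block number `i` is placed. -/
noncomputable def pos (i : ℕ) : ℕ := i + 2 * (∑ l ∈ Finset.range i, v l) + v i

theorem pos_gap {i k : ℕ} (h : i < k) : pos i + (k - i) + v i + v k ≤ pos k := by
  unfold pos
  have h1 : (∑ l ∈ Finset.range i, v l) + v i ≤ ∑ l ∈ Finset.range k, v l := by
    rw [← Finset.sum_range_succ]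
    exact Finset.sum_le_sum_of_subset (Finset.range_subset_range.2 h)
  omega

theorem pos_strictMono : StrictMono pos := by
  intro i k h
  have := pos_gap h
  omega

theorem le_pos (i : ℕ) : i + v i ≤ pos i := by unfold pos; omega

theorem sum_v (i : ℕ) : ∑ l ∈ Finset.range (i + 1), v l = padicValNat 2 (i.factorial) := by
  induction i with
  | zero => simp [v]
  | succ i ih =>
    rw [Finset.sum_range_succ, ih, Nat.factorial_succ, padicValNat.mul (by omega)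
      (Nat.factorial_ne_zero _), add_comm]
    rfl

theorem sum_v_le (i : ℕ) : ∑ l ∈ Finset.range (i + 1), v l ≤ i := by
  rw [sum_v]
  have := sub_one_mul_padicValNat_factorial (p := 2) i
  omega

theorem pos_le (i : ℕ) : pos i ≤ 3 * i := by
  unfold pos
  have h := sum_v_le i
  rw [Finset.sum_range_succ] at h
  omega

theorem v_mul (a t : ℕ) : v (2 ^ a * (2 * t + 1)) = a := by
  unfold v
  rw [padicValNat.mul (by positivity) (by omega), padicValNat.prime_pow,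
    padicValNat.eq_zero_of_not_dvd (by omega)]
  rfl

theorem density (a : ℕ) : PosLowerDensity {n | ∃ i, i ≠ 0 ∧ v i = a ∧ n = pos i} := by
  refine ⟨1 / (12 * 2 ^ a), by positivity, 12 * 2 ^ a, fun N hN => ?_⟩
  set K := N / (6 * 2 ^ a) with hK
  have hpos : 0 < 6 * 2 ^ a := by positivity
  have hinj : Function.Injective fun t : ℕ => pos (2 ^ a * (2 * t + 1)) := by
    intro t s hts
    have h1 := pos_strictMono.injective hts
    have h2 := Nat.eq_of_mul_eq_mul_left (by positivity) h1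
    omega
  have hsub : ((Finset.range K).image fun t : ℕ => pos (2 ^ a * (2 * t + 1)) : Set ℕ) ⊆
      {n : ℕ | n < N ∧ n ∈ {n | ∃ i, i ≠ 0 ∧ v i = a ∧ n = pos i}} := by
    intro n hn
    rw [Finset.coe_image] at hn
    obtain ⟨t, ht, rfl⟩ := hn
    rw [Finset.mem_coe, Finset.mem_range] at ht
    refine ⟨?_, 2 ^ a * (2 * t + 1), by positivity, v_mul a t, rfl⟩
    have h1 := pos_le (2 ^ a * (2 * t + 1))
    have h2 : K * (6 * 2 ^ a) ≤ N := Nat.div_mul_le_self _ _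
    have h3 : (t + 1) * (6 * 2 ^ a) ≤ K * (6 * 2 ^ a) := Nat.mul_le_mul_right _ ht
    show pos (2 ^ a * (2 * t + 1)) < N
    have h4 : 0 < 2 ^ a := by positivity
    nlinarith
  have hfin : {n : ℕ | n < N ∧ n ∈ {n | ∃ i, i ≠ 0 ∧ v i = a ∧ n = pos i}}.Finite :=
    (Set.finite_lt_nat N).subset fun n hn => hn.1
  have hcard := Set.ncard_le_ncard hsub hfin
  rw [Set.ncard_coe_finset, Finset.card_image_of_injective _ hinj, Finset.card_range] at hcard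
  have h5 : (N : ℝ) < (K + 1) * (6 * 2 ^ a) := by
    have : N < (K + 1) * (6 * 2 ^ a) := by
      rw [hK]
      have := Nat.lt_div_mul_add (a := N) hpos
      linarith
    exact_mod_cast this
  have h6 : (12 * 2 ^ a : ℝ) ≤ N := by exact_mod_cast hN
  have h7 : (K : ℝ) ≤ _ := Nat.cast_le.2 hcard
  refine le_trans ?_ h7
  have h8 : (0 : ℝ) < 2 ^ a := by positivity
  rw [div_mul_eq_mul_div, one_mul, div_le_iff₀ (by positivity)]
  nlinarith

/-! ### A frequent hypercyclicity criterion -/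

section Crit

variable {𝕜 Y : Type} [RCLike 𝕜] [NormedAddCommGroup Y] [NormedSpace 𝕜 Y]

/-- `y` can be approximated by vectors whose backward orbit decays up to any given time. -/
def Good (T : Y ≃L[𝕜] Y) (y : Y) : Prop :=
  ∀ η : ℝ, 0 < η → ∃ C : ℝ, ∀ K : ℕ, ∃ w : Y, ‖w - y‖ ≤ η ∧
    ∀ k : ℤ, k ≤ K → ‖(T ^ (-k) : Y ≃L[𝕜] Y) w‖ ≤ C * (1 / 2) ^ k.natAbs

theorem sum_dist (m : ℕ) (s : Finset ℕ) :
    ∑ i ∈ s, ((1 : ℝ) / 2) ^ ((i : ℤ) - m).natAbs ≤ 4 := by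
  have h1 : ∀ i : ℕ, ((1 : ℝ) / 2) ^ ((i : ℤ) - m).natAbs ≤
      (if i < m then ((1 : ℝ) / 2) ^ (m - 1 - i) else 0) +
        (if m ≤ i then ((1 : ℝ) / 2) ^ (i - m) else 0) := by
    intro i
    rcases lt_or_ge i m with h | h
    · rw [if_pos h, if_neg (by omega), add_zero]
      apply pow_le_pow_of_le_one (by norm_num) (by norm_num)
      omega
    · rw [if_neg (by omega), if_pos h, zero_add]
      apply pow_le_pow_of_le_one (by norm_num) (by norm_num)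
      omega
  have hgeo : ∀ t : Finset ℕ, ∑ j ∈ t, ((1 : ℝ) / 2) ^ j ≤ 2 := by
    intro t
    have := Summable.sum_le_tsum t (fun j _ => by positivity) summable_geometric_two
    rw [tsum_geometric_two] at this
    exact this
  have h2 : ∑ i ∈ s, (if i < m then ((1 : ℝ) / 2) ^ (m - 1 - i) else 0) ≤ 2 := by
    rw [← Finset.sum_filter]
    rw [← Finset.sum_image (s := s.filter (· < m)) (g := fun i => m - 1 - i)
      (f := fun j => ((1 : ℝ) / 2) ^ j)]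
    · exact hgeo _
    · intro i hi j hj hij
      simp only [Finset.coe_filter, Set.mem_ofPred_eq] at hi hj
      simp only at hij
      omega
  have h3 : ∑ i ∈ s, (if m ≤ i then ((1 : ℝ) / 2) ^ (i - m) else 0) ≤ 2 := by
    rw [← Finset.sum_filter]
    rw [← Finset.sum_image (s := s.filter (m ≤ ·)) (g := fun i => i - m)
      (f := fun j => ((1 : ℝ) / 2) ^ j)]
    · exact hgeo _
    · intro i hi j hj hij
      simp only [Finset.coe_filter, Set.mem_ofPred_eq] at hi hj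
      simp only at hij
      omega
  calc ∑ i ∈ s, ((1 : ℝ) / 2) ^ ((i : ℤ) - m).natAbs
      ≤ ∑ i ∈ s, ((if i < m then ((1 : ℝ) / 2) ^ (m - 1 - i) else 0) +
        (if m ≤ i then ((1 : ℝ) / 2) ^ (i - m) else 0)) := Finset.sum_le_sum fun i _ => h1 i
    _ ≤ 4 := by rw [Finset.sum_add_distrib]; linarith

theorem zpow_add_apply (T : Y ≃L[𝕜] Y) (m n : ℤ) (y : Y) :
    (T ^ (m + n) : Y ≃L[𝕜] Y) y = (T ^ m : Y ≃L[𝕜] Y) ((T ^ n : Y ≃L[𝕜] Y) y) := by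
  rw [zpow_add]; rfl

theorem zpow_zero_apply (T : Y ≃L[𝕜] Y) (y : Y) : (T ^ (0 : ℤ) : Y ≃L[𝕜] Y) y = y := by
  rw [zpow_zero]; rfl

theorem fhc [CompleteSpace Y] [TopologicalSpace.SeparableSpace Y] (T : Y ≃L[𝕜] Y)
    (h : ∀ y, Good T y) :
    ∃ x, ∀ U : Set Y, IsOpen U → U.Nonempty →
      PosLowerDensity {n : ℕ | (T ^ (n : ℤ) : Y ≃L[𝕜] Y) x ∈ U} := by
  classical
  -- targets
  set yt : ℕ → Y := fun t => TopologicalSpace.denseSeq Y (Nat.unpair t).1 with hyt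
  have hη : ∀ t : ℕ, (0 : ℝ) < 1 / ((Nat.unpair t).2 + 1) := fun t => by positivity
  choose C w hw1 hw2 using fun t : ℕ => h (yt t) _ (hη t)
  set block : ℕ → ℕ → Y := fun b K =>
    if C (Nat.unpair b).1 ≤ 2 ^ b then w (Nat.unpair b).1 K else 0 with hblock
  have hb : ∀ (b K : ℕ) (k : ℤ), k ≤ K →
      ‖(T ^ (-k) : Y ≃L[𝕜] Y) (block b K)‖ ≤ 2 ^ b * (1 / 2) ^ k.natAbs := by
    intro b K k hk
    simp only [hblock]
    split_ifs with hC
    · exact (hw2 _ K k hk).trans (mul_le_mul_of_nonneg_right hC (by positivity))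
    · rw [map_zero, norm_zero]; positivity
  set term : ℕ → Y := fun i => if i = 0 then 0 else
    (T ^ (-(pos i : ℤ)) : Y ≃L[𝕜] Y) (block (v i) (pos i)) with hterm
  have hgap : ∀ i m : ℕ, i ≠ m →
      ((i : ℤ) - m).natAbs + v i + v m ≤ ((pos i : ℤ) - pos m).natAbs := by
    intro i m him
    rcases lt_or_gt_of_ne him with h1 | h1
    · have := pos_gap h1
      omega
    · have := pos_gap h1
      omega
  have hT : ∀ i m : ℕ, i ≠ m → ‖(T ^ (pos m : ℤ) : Y ≃L[𝕜] Y) (term i)‖ ≤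
      (1 / 2) ^ v m * (1 / 2) ^ ((i : ℤ) - m).natAbs := by
    intro i m him
    simp only [hterm]
    split_ifs with h0
    · rw [map_zero, norm_zero]; positivity
    · rw [← zpow_add_apply]
      have e1 : (pos m : ℤ) + -(pos i : ℤ) = -((pos i : ℤ) - pos m) := by ring
      rw [e1]
      refine (hb _ _ _ (by omega)).trans ?_
      have h1 := hgap i m him
      have h2 : ((1 : ℝ) / 2) ^ ((pos i : ℤ) - pos m).natAbs ≤
          (1 / 2) ^ (((i : ℤ) - m).natAbs + v i + v m) :=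
        pow_le_pow_of_le_one (by norm_num) (by norm_num) h1
      calc (2 : ℝ) ^ v i * (1 / 2) ^ ((pos i : ℤ) - pos m).natAbs
          ≤ 2 ^ v i * (1 / 2) ^ (((i : ℤ) - m).natAbs + v i + v m) :=
            mul_le_mul_of_nonneg_left h2 (by positivity)
        _ = (1 / 2) ^ v m * (1 / 2) ^ ((i : ℤ) - m).natAbs := by
            rw [pow_add, pow_add]
            have h3 : (2 : ℝ) ^ v i * (1 / 2) ^ v i = 1 := by
              rw [← mul_pow]; norm_num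
            calc (2 : ℝ) ^ v i * ((1 / 2) ^ ((i : ℤ) - m).natAbs * (1 / 2) ^ v i * (1 / 2) ^ v m)
                = (2 ^ v i * (1 / 2) ^ v i) * ((1 / 2) ^ v m * (1 / 2) ^ ((i : ℤ) - m).natAbs) := by
                  ring
              _ = _ := by rw [h3, one_mul]
  have hsum0 : ∀ i : ℕ, ‖term i‖ ≤ (1 / 2) ^ i := by
    intro i
    simp only [hterm]
    split_ifs with h0
    · rw [norm_zero]; positivity
    · refine (hb _ _ _ le_rfl).trans ?_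
      rw [Int.natAbs_natCast]
      have h1 := le_pos i
      calc (2 : ℝ) ^ v i * (1 / 2) ^ pos i ≤ 2 ^ v i * (1 / 2) ^ (i + v i) :=
            mul_le_mul_of_nonneg_left (pow_le_pow_of_le_one (by norm_num) (by norm_num) h1)
              (by positivity)
        _ = (1 / 2) ^ i := by
            have h3 : (2 : ℝ) ^ v i * (1 / 2) ^ v i = 1 := by
              rw [← mul_pow]; norm_num
            rw [pow_add]
            calc (2 : ℝ) ^ v i * ((1 / 2) ^ i * (1 / 2) ^ v i)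
                = (2 ^ v i * (1 / 2) ^ v i) * (1 / 2) ^ i := by ring
              _ = _ := by rw [h3, one_mul]
  have hsum : Summable term :=
    Summable.of_norm_bounded summable_geometric_two hsum0
  set x := ∑' i, term i with hx
  have hvisit : ∀ m : ℕ, m ≠ 0 →
      ‖(T ^ (pos m : ℤ) : Y ≃L[𝕜] Y) x - block (v m) (pos m)‖ ≤ (1 / 2) ^ v m * 4 := by
    intro m hm
    have h1 : HasSum (fun i => (T ^ (pos m : ℤ) : Y ≃L[𝕜] Y) (term i))
        ((T ^ (pos m : ℤ) : Y ≃L[𝕜] Y) x) :=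
      (((T ^ (pos m : ℤ) : Y ≃L[𝕜] Y) : Y →L[𝕜] Y)).hasSum hsum.hasSum
    have h2 : (T ^ (pos m : ℤ) : Y ≃L[𝕜] Y) (term m) = block (v m) (pos m) := by
      simp only [hterm, if_neg hm]
      rw [← zpow_add_apply, add_neg_cancel, zpow_zero_apply]
    have h3 : Tendsto (fun s : Finset ℕ => ‖(∑ i ∈ s, (T ^ (pos m : ℤ) : Y ≃L[𝕜] Y) (term i)) -
        block (v m) (pos m)‖) atTop (𝓝 ‖(T ^ (pos m : ℤ) : Y ≃L[𝕜] Y) x -
          block (v m) (pos m)‖) := by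
      have h4 : Tendsto (fun s : Finset ℕ => ∑ i ∈ s, (T ^ (pos m : ℤ) : Y ≃L[𝕜] Y) (term i))
          atTop (𝓝 ((T ^ (pos m : ℤ) : Y ≃L[𝕜] Y) x)) := h1
      exact (h4.sub_const _).norm
    refine le_of_tendsto h3 ?_
    filter_upwards [eventually_ge_atTop {m}] with s hs
    have hms : m ∈ s := hs (Finset.mem_singleton_self m)
    rw [← Finset.sum_erase_add _ _ hms, h2, add_sub_cancel_right]
    calc ‖∑ i ∈ s.erase m, (T ^ (pos m : ℤ) : Y ≃L[𝕜] Y) (term i)‖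
        ≤ ∑ i ∈ s.erase m, (1 / 2) ^ v m * (1 / 2) ^ ((i : ℤ) - m).natAbs :=
          (norm_sum_le _ _).trans (Finset.sum_le_sum fun i hi => hT i m (Finset.ne_of_mem_erase hi))
      _ ≤ (1 / 2) ^ v m * 4 := by
          rw [← Finset.mul_sum]
          exact mul_le_mul_of_nonneg_left (sum_dist m _) (by positivity)
  refine ⟨x, fun U hU hne => ?_⟩
  obtain ⟨y, hy⟩ := hne
  obtain ⟨r, hr, hball⟩ := Metric.isOpen_iff.1 hU y hy
  obtain ⟨d, hd⟩ := (TopologicalSpace.denseRange_denseSeq Y).exists_dist_lt y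
    (show 0 < r / 4 by linarith)
  obtain ⟨e, he⟩ := exists_nat_one_div_lt (show 0 < r / 4 by linarith)
  set t := Nat.pair d e with ht
  obtain ⟨s1, hs1⟩ := pow_unbounded_of_one_lt (C t) (show (1 : ℝ) < 2 by norm_num)
  obtain ⟨s2, hs2⟩ := exists_pow_lt_of_lt_one (show 0 < r / 16 by linarith)
    (show (1 / 2 : ℝ) < 1 by norm_num)
  set b := Nat.pair t (max s1 s2) with hbdef
  have hbt : (Nat.unpair b).1 = t := by rw [hbdef, Nat.unpair_pair]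
  have hbs : max s1 s2 ≤ b := Nat.right_le_pair _ _
  have hC : C (Nat.unpair b).1 ≤ 2 ^ b := by
    rw [hbt]
    refine hs1.le.trans (pow_le_pow_right₀ (by norm_num) ((le_max_left _ _).trans hbs))
  have hsmall : ((1 : ℝ) / 2) ^ b * 4 < r / 4 := by
    have := pow_le_pow_of_le_one (show (0 : ℝ) ≤ 1 / 2 by norm_num) (by norm_num)
      ((le_max_right s1 s2).trans hbs)
    linarith
  obtain ⟨δ, hδ, N₀, hN⟩ := density b
  refine ⟨δ, hδ, N₀, fun N hN' => (hN N hN').trans ?_⟩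
  have hfin : {n : ℕ | n < N ∧ n ∈ {n : ℕ | (T ^ (n : ℤ) : Y ≃L[𝕜] Y) x ∈ U}}.Finite :=
    (Set.finite_lt_nat N).subset fun n hn => hn.1
  refine Nat.cast_le.2 (Set.ncard_le_ncard ?_ hfin)
  rintro n ⟨hn, i, hi0, hvi, rfl⟩
  refine ⟨hn, hball ?_⟩
  have h1 := hvisit i hi0
  rw [hvi] at h1
  have h2 : block b (pos i) = w t (pos i) := by
    simp only [hblock]
    rw [if_pos hC, hbt]
  have h3 : ‖w t (pos i) - yt t‖ ≤ 1 / ((Nat.unpair t).2 + 1) := hw1 t (pos i)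
  have h4 : yt t = TopologicalSpace.denseSeq Y d := by
    simp only [hyt, ht, Nat.unpair_pair]
  have h5 : (1 : ℝ) / ((Nat.unpair t).2 + 1) < r / 4 := by
    rw [ht, Nat.unpair_pair]; exact he
  rw [h2] at h1
  rw [h4] at h3
  rw [dist_comm] at hd
  rw [Metric.mem_ball, dist_eq_norm]
  rw [dist_eq_norm] at hd
  have h6 : (T ^ ((pos i : ℕ) : ℤ) : Y ≃L[𝕜] Y) x - y =
      ((T ^ ((pos i : ℕ) : ℤ) : Y ≃L[𝕜] Y) x - w t (pos i)) +
        (w t (pos i) - TopologicalSpace.denseSeq Y d) +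
        (TopologicalSpace.denseSeq Y d - y) := by abel
  rw [h6]
  refine (norm_add_le _ _).trans_lt ?_
  have h7 := norm_add_le ((T ^ ((pos i : ℕ) : ℤ) : Y ≃L[𝕜] Y) x - w t (pos i))
    (w t (pos i) - TopologicalSpace.denseSeq Y d)
  linarith

end Crit


/-! ### The space `X` -/

section Ell

variable {𝕜 : Type} [RCLike 𝕜] {ι : Type}

/-- `ℓ¹(ι)`. -/
abbrev E (𝕜 : Type) [RCLike 𝕜] (ι : Type) := lp (fun _ : ι => 𝕜) 1

theorem memE (f : ι → 𝕜) : Memℓp f 1 ↔ Summable (fun i => ‖f i‖) := by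
  rw [memℓp_gen_iff (by norm_num)]; simp

theorem normE (u : E 𝕜 ι) : ‖u‖ = ∑' i, ‖u i‖ := by
  rw [lp.norm_eq_tsum_rpow (by norm_num)]; simp

theorem summE (u : E 𝕜 ι) : Summable fun i => ‖u i‖ := (memE _).1 (lp.memℓp u)

theorem apply_leE (u : E 𝕜 ι) (i : ι) : ‖u i‖ ≤ ‖u‖ := by
  rw [normE]
  exact (summE u).le_tsum i fun j _ => norm_nonneg _

/-- Diagonal operators on `ℓ¹(ι)`. -/
noncomputable def diagE (c : ι → ℝ) (B : ℝ) (h : ∀ i, |c i| ≤ B) : E 𝕜 ι →L[𝕜] E 𝕜 ι :=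
  LinearMap.mkContinuous
    { toFun := fun u => ⟨fun i => (c i : 𝕜) * u i, (memE _).2 (by
        refine Summable.of_nonneg_of_le (fun i => norm_nonneg _) (fun i => ?_)
          ((summE u).mul_left B)
        rw [norm_mul, RCLike.norm_ofReal]
        exact mul_le_mul_of_nonneg_right (h i) (norm_nonneg _))⟩
      map_add' := fun u w => by
        ext i
        show (c i : 𝕜) * (u i + w i) = (c i : 𝕜) * u i + (c i : 𝕜) * w i
        ring
      map_smul' := fun a u => by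
        ext i
        show (c i : 𝕜) * (a * u i) = a * ((c i : 𝕜) * u i)
        ring } B (fun u => by
      rw [normE, normE, ← tsum_mul_left]
      have h1 : ∀ i, ‖(c i : 𝕜) * u i‖ ≤ B * ‖u i‖ := fun i => by
        rw [norm_mul, RCLike.norm_ofReal]
        exact mul_le_mul_of_nonneg_right (h i) (norm_nonneg _)
      exact Summable.tsum_le_tsum h1 (Summable.of_nonneg_of_le (fun i => norm_nonneg _) h1
        ((summE u).mul_left B)) ((summE u).mul_left B))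

theorem diagE_apply (c : ι → ℝ) (B : ℝ) (h : ∀ i, |c i| ≤ B) (u : E 𝕜 ι) (i : ι) :
    (diagE c B h u) i = (c i : 𝕜) * u i := rfl

theorem diagE_norm (c : ι → ℝ) (B : ℝ) (h : ∀ i, |c i| ≤ B) (u : E 𝕜 ι) :
    ‖diagE c B h u‖ ≤ B * ‖u‖ := by
  rw [normE, normE, ← tsum_mul_left]
  have h1 : ∀ i, ‖(c i : 𝕜) * u i‖ ≤ B * ‖u i‖ := fun i => by
    rw [norm_mul, RCLike.norm_ofReal]
    exact mul_le_mul_of_nonneg_right (h i) (norm_nonneg _)
  exact Summable.tsum_le_tsum h1 (Summable.of_nonneg_of_le (fun i => norm_nonneg _) h1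
    ((summE u).mul_left B)) ((summE u).mul_left B)

theorem summ_func (c : ι → ℝ) (B : ℝ) (h : ∀ i, |c i| ≤ B) (u : E 𝕜 ι) :
    Summable fun i => ‖(c i : 𝕜) * u i‖ := by
  refine Summable.of_nonneg_of_le (fun i => norm_nonneg _) (fun i => ?_) ((summE u).mul_left B)
  rw [norm_mul, RCLike.norm_ofReal]
  exact mul_le_mul_of_nonneg_right (h i) (norm_nonneg _)

/-- Functionals on `ℓ¹(ι)`. -/
noncomputable def funcE (c : ι → ℝ) (B : ℝ) (h : ∀ i, |c i| ≤ B) : E 𝕜 ι →L[𝕜] 𝕜 :=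
  LinearMap.mkContinuous
    { toFun := fun u => ∑' i, (c i : 𝕜) * u i
      map_add' := fun u w => by
        rw [← ((summ_func c B h u).of_norm).tsum_add ((summ_func c B h w).of_norm)]
        apply tsum_congr
        intro i
        show (c i : 𝕜) * (u i + w i) = (c i : 𝕜) * u i + (c i : 𝕜) * w i
        ring
      map_smul' := fun a u => by
        rw [RingHom.id_apply, smul_eq_mul, ← tsum_mul_left]
        apply tsum_congr
        intro i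
        show (c i : 𝕜) * (a * u i) = a * ((c i : 𝕜) * u i)
        ring } B (fun u => by
      refine (norm_tsum_le_tsum_norm (summ_func c B h u)).trans ?_
      rw [normE, ← tsum_mul_left]
      refine Summable.tsum_le_tsum (fun i => ?_) (summ_func c B h u) ((summE u).mul_left B)
      rw [norm_mul, RCLike.norm_ofReal]
      exact mul_le_mul_of_nonneg_right (h i) (norm_nonneg _))

theorem funcE_apply (c : ι → ℝ) (B : ℝ) (h : ∀ i, |c i| ≤ B) (u : E 𝕜 ι) :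
    funcE c B h u = ∑' i, (c i : 𝕜) * u i := rfl

theorem funcE_norm (c : ι → ℝ) (B : ℝ) (h : ∀ i, |c i| ≤ B) (u : E 𝕜 ι) :
    ‖funcE c B h u‖ ≤ B * ‖u‖ := by
  refine (norm_tsum_le_tsum_norm (summ_func c B h u)).trans ?_
  rw [normE, ← tsum_mul_left]
  refine Summable.tsum_le_tsum (fun i => ?_) (summ_func c B h u) ((summE u).mul_left B)
  rw [norm_mul, RCLike.norm_ofReal]
  exact mul_le_mul_of_nonneg_right (h i) (norm_nonneg _)

variable [DecidableEq ι]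

/-- Unit vectors. -/
noncomputable def e (𝕜 : Type) [RCLike 𝕜] {ι : Type} [DecidableEq ι] (i : ι) : E 𝕜 ι :=
  lp.single 1 i (1 : 𝕜)

theorem e_self (i : ι) : (e 𝕜 i) i = 1 := by
  unfold e
  rw [lp.single_apply_self]

theorem e_ne {i j : ι} (h : j ≠ i) : (e 𝕜 i) j = 0 := by
  unfold e
  rw [lp.single_apply_ne _ _ _ h]

theorem norm_e (i : ι) : ‖e 𝕜 i‖ = 1 := by
  unfold e
  rw [lp.norm_single (by norm_num)]
  simp

theorem diagE_e (c : ι → ℝ) (B : ℝ) (h : ∀ i, |c i| ≤ B) (i : ι) :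
    diagE c B h (e 𝕜 i) = (c i : 𝕜) • e 𝕜 i := by
  ext j
  rw [diagE_apply, lp.coeFn_smul, Pi.smul_apply, smul_eq_mul]
  by_cases hj : j = i
  · rw [hj]
  · rw [e_ne hj, mul_zero, mul_zero]

theorem funcE_e (c : ι → ℝ) (B : ℝ) (h : ∀ i, |c i| ≤ B) (i : ι) :
    funcE c B h (e 𝕜 i) = (c i : 𝕜) := by
  rw [funcE_apply, tsum_eq_single i, e_self, mul_one]
  intro j hj
  rw [e_ne hj, mul_zero]

/-- A closed submodule of `ℓ¹(ι)` containing the unit vectors is everything. -/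
theorem total_E (M : Submodule 𝕜 (E 𝕜 ι)) (hM : IsClosed (M : Set (E 𝕜 ι)))
    (h : ∀ i, e 𝕜 i ∈ M) (u : E 𝕜 ι) : u ∈ M := by
  have h1 := lp.hasSum_single (E := fun _ : ι => 𝕜) (p := 1) (by norm_num) u
  refine hM.mem_of_tendsto h1 (Eventually.of_forall fun s => ?_)
  refine M.sum_mem fun i _ => ?_
  have h2 : lp.single (E := fun _ : ι => 𝕜) 1 i (u i) = (u i) • e 𝕜 i := by
    unfold e
    rw [← lp.single_smul, smul_eq_mul, mul_one]
  rw [h2]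
  exact M.smul_mem _ (h i)

end Ell

/-- The Banach space `X = 𝕜 × ℓ¹(ℕ) × ℓ¹(ℕ × ℕ)`. -/
abbrev X (𝕜 : Type) [RCLike 𝕜] := 𝕜 × E 𝕜 ℕ × E 𝕜 (ℕ × ℕ)

/-- Ratios on the middle component. -/
noncomputable def rW (k i : ℕ) : ℝ := if k ≤ i then 1 / 4 else if k ≤ 3 * i then 2 else 1 / 2

/-- Ratios on the last component. -/
noncomputable def rZ (k : ℕ) (q : ℕ × ℕ) : ℝ :=
  if k ≤ q.1 then 1 / 2 else if k ≤ 6 * q.1 then 2 else 1 / 2

/-- Coefficients of the coupling functional. -/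
noncomputable def cf (k : ℕ) (q : ℕ × ℕ) : ℝ :=
  if q.2 ≤ k ∧ k ≤ q.1 then -(2 ^ q.2 / 2 ^ k) else 0

theorem rW_pos (k i : ℕ) : 0 < rW k i := by unfold rW; split_ifs <;> norm_num
theorem rZ_pos (k : ℕ) (q : ℕ × ℕ) : 0 < rZ k q := by unfold rZ; split_ifs <;> norm_num
theorem rW_le (k i : ℕ) : |rW k i| ≤ 2 := by unfold rW; split_ifs <;> norm_num
theorem rZ_le (k : ℕ) (q : ℕ × ℕ) : |rZ k q| ≤ 2 := by unfold rZ; split_ifs <;> norm_num
theorem rW_inv_le (k i : ℕ) : |(rW k i)⁻¹| ≤ 4 := by unfold rW; split_ifs <;> norm_num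
theorem rZ_inv_le (k : ℕ) (q : ℕ × ℕ) : |(rZ k q)⁻¹| ≤ 4 := by
  unfold rZ; split_ifs <;> norm_num
theorem cf_le (k : ℕ) (q : ℕ × ℕ) : |cf k q| ≤ 1 := by
  unfold cf
  split_ifs with h
  · rw [abs_neg, abs_of_pos (by positivity), div_le_one (by positivity)]
    exact pow_le_pow_right₀ (by norm_num) h.1
  · norm_num

section Tau

variable {𝕜 : Type} [RCLike 𝕜]

/-- The coupling functional. -/
noncomputable def Lam (𝕜 : Type) [RCLike 𝕜] (k : ℕ) (y : 𝕜) (z : E 𝕜 (ℕ × ℕ)) : 𝕜 :=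
  (((1 / 2 : ℝ) ^ k : ℝ) : 𝕜) * y + funcE (cf k) 1 (cf_le k) z

theorem Lam_norm (k : ℕ) (y : 𝕜) (z : E 𝕜 (ℕ × ℕ)) : ‖Lam 𝕜 k y z‖ ≤ ‖y‖ + ‖z‖ := by
  unfold Lam
  refine (norm_add_le _ _).trans ?_
  have h1 := funcE_norm (cf k) 1 (cf_le k) z
  have h2 : ‖(((1 / 2 : ℝ) ^ k : ℝ) : 𝕜) * y‖ ≤ ‖y‖ := by
    rw [norm_mul, RCLike.norm_ofReal, abs_of_pos (by positivity)]
    have : ((1 : ℝ) / 2) ^ k ≤ 1 := pow_le_one₀ (by norm_num) (by norm_num)
    nlinarith [norm_nonneg y]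
  linarith

theorem Lam_add (k : ℕ) (y y' : 𝕜) (z z' : E 𝕜 (ℕ × ℕ)) :
    Lam 𝕜 k (y + y') (z + z') = Lam 𝕜 k y z + Lam 𝕜 k y' z' := by
  unfold Lam; rw [map_add]; ring

theorem Lam_smul (k : ℕ) (a y : 𝕜) (z : E 𝕜 (ℕ × ℕ)) :
    Lam 𝕜 k (a * y) (a • z) = a * Lam 𝕜 k y z := by
  unfold Lam; rw [map_smul, smul_eq_mul]; ring

/-- The transition from time `k - 1` to time `k`, for `k ≥ 1`. -/
noncomputable def tauF (𝕜 : Type) [RCLike 𝕜] (k : ℕ) : X 𝕜 →L[𝕜] X 𝕜 :=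
  LinearMap.mkContinuous
    { toFun := fun u => (((1 / 2 : ℝ) : 𝕜) * u.1,
        diagE (rW k) 2 (rW_le k) u.2.1 +
          Lam 𝕜 k (((1 / 2 : ℝ) : 𝕜) * u.1) (diagE (rZ k) 2 (rZ_le k) u.2.2) • e 𝕜 k,
        diagE (rZ k) 2 (rZ_le k) u.2.2)
      map_add' := fun u w => by
        refine Prod.ext ?_ (Prod.ext ?_ ?_)
        · show ((1 / 2 : ℝ) : 𝕜) * (u.1 + w.1) = _
          rw [mul_add]; rfl
        · show diagE (rW k) 2 (rW_le k) (u.2.1 + w.2.1) + Lam 𝕜 k (((1 / 2 : ℝ) : 𝕜) * (u.1 + w.1))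
            (diagE (rZ k) 2 (rZ_le k) (u.2.2 + w.2.2)) • e 𝕜 k = _
          rw [map_add, map_add, mul_add, Lam_add, add_smul]
          show _ = (_ + _) + (_ + _)
          abel
        · show diagE (rZ k) 2 (rZ_le k) (u.2.2 + w.2.2) = _
          rw [map_add]; rfl
      map_smul' := fun a u => by
        refine Prod.ext ?_ (Prod.ext ?_ ?_)
        · show ((1 / 2 : ℝ) : 𝕜) * (a * u.1) = a * (((1 / 2 : ℝ) : 𝕜) * u.1)
          ring
        · show diagE (rW k) 2 (rW_le k) (a • u.2.1) + Lam 𝕜 k (((1 / 2 : ℝ) : 𝕜) * (a * u.1))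
            (diagE (rZ k) 2 (rZ_le k) (a • u.2.2)) • e 𝕜 k = a • (_ + _)
          have h1 : ((1 / 2 : ℝ) : 𝕜) * (a * u.1) = a * (((1 / 2 : ℝ) : 𝕜) * u.1) := by ring
          rw [map_smul, map_smul, h1, Lam_smul, smul_add, smul_smul]
        · show diagE (rZ k) 2 (rZ_le k) (a • u.2.2) = a • _
          rw [map_smul] } 12 (fun u => by
      have h1 : ‖u.1‖ ≤ ‖u‖ := norm_fst_le u
      have h2 : ‖u.2.1‖ ≤ ‖u‖ := (norm_fst_le u.2).trans (norm_snd_le u)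
      have h3 : ‖u.2.2‖ ≤ ‖u‖ := (norm_snd_le u.2).trans (norm_snd_le u)
      have h4 : ‖((1 / 2 : ℝ) : 𝕜) * u.1‖ ≤ ‖u‖ := by
        rw [norm_mul, RCLike.norm_ofReal, abs_of_pos (by norm_num)]
        linarith [norm_nonneg u]
      have h5 := diagE_norm (𝕜 := 𝕜) (rZ k) 2 (rZ_le k) u.2.2
      have h6 := diagE_norm (𝕜 := 𝕜) (rW k) 2 (rW_le k) u.2.1
      have h0 := norm_nonneg u
      show ‖(_, _, _)‖ ≤ _
      rw [Prod.norm_mk, Prod.norm_mk]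
      refine max_le (by linarith) (max_le ?_ (by linarith))
      refine (norm_add_le _ _).trans ?_
      rw [norm_smul, norm_e, mul_one]
      have h7 := Lam_norm k (((1 / 2 : ℝ) : 𝕜) * u.1) (diagE (rZ k) 2 (rZ_le k) u.2.2)
      linarith)

end Tau


section Tau2

variable {𝕜 : Type} [RCLike 𝕜]

theorem tauF_apply (k : ℕ) (u : X 𝕜) : tauF 𝕜 k u = (((1 / 2 : ℝ) : 𝕜) * u.1,
    diagE (rW k) 2 (rW_le k) u.2.1 +
      Lam 𝕜 k (((1 / 2 : ℝ) : 𝕜) * u.1) (diagE (rZ k) 2 (rZ_le k) u.2.2) • e 𝕜 k,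
    diagE (rZ k) 2 (rZ_le k) u.2.2) := rfl

/-- The inverse transition. -/
noncomputable def tauG (𝕜 : Type) [RCLike 𝕜] (k : ℕ) : X 𝕜 →L[𝕜] X 𝕜 :=
  LinearMap.mkContinuous
    { toFun := fun u => (((2 : ℝ) : 𝕜) * u.1,
        diagE (fun i => (rW k i)⁻¹) 4 (rW_inv_le k) (u.2.1 - Lam 𝕜 k u.1 u.2.2 • e 𝕜 k),
        diagE (fun q => (rZ k q)⁻¹) 4 (rZ_inv_le k) u.2.2)
      map_add' := fun u w => by
        refine Prod.ext ?_ (Prod.ext ?_ ?_)
        · show ((2 : ℝ) : 𝕜) * (u.1 + w.1) = _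
          rw [mul_add]; rfl
        · show diagE (fun i => (rW k i)⁻¹) 4 (rW_inv_le k)
            ((u.2.1 + w.2.1) - Lam 𝕜 k (u.1 + w.1) (u.2.2 + w.2.2) • e 𝕜 k) = _ + _
          rw [Lam_add, add_smul, ← map_add]
          congr 1
          abel
        · show diagE (fun q => (rZ k q)⁻¹) 4 (rZ_inv_le k) (u.2.2 + w.2.2) = _
          rw [map_add]; rfl
      map_smul' := fun a u => by
        refine Prod.ext ?_ (Prod.ext ?_ ?_)
        · show ((2 : ℝ) : 𝕜) * (a * u.1) = a * (((2 : ℝ) : 𝕜) * u.1)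
          ring
        · show diagE (fun i => (rW k i)⁻¹) 4 (rW_inv_le k)
            (a • u.2.1 - Lam 𝕜 k (a * u.1) (a • u.2.2) • e 𝕜 k) = a • _
          rw [Lam_smul, mul_smul, ← smul_sub, map_smul]
        · show diagE (fun q => (rZ k q)⁻¹) 4 (rZ_inv_le k) (a • u.2.2) = a • _
          rw [map_smul] } 12 (fun u => by
      have h1 : ‖u.1‖ ≤ ‖u‖ := norm_fst_le u
      have h2 : ‖u.2.1‖ ≤ ‖u‖ := (norm_fst_le u.2).trans (norm_snd_le u)
      have h3 : ‖u.2.2‖ ≤ ‖u‖ := (norm_snd_le u.2).trans (norm_snd_le u)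
      have h4 : ‖((2 : ℝ) : 𝕜) * u.1‖ ≤ 2 * ‖u‖ := by
        rw [norm_mul, RCLike.norm_ofReal, abs_of_pos (by norm_num)]
        linarith
      have h5 := diagE_norm (𝕜 := 𝕜) (fun q => (rZ k q)⁻¹) 4 (rZ_inv_le k) u.2.2
      have h6 := diagE_norm (𝕜 := 𝕜) (fun i => (rW k i)⁻¹) 4 (rW_inv_le k)
        (u.2.1 - Lam 𝕜 k u.1 u.2.2 • e 𝕜 k)
      have h0 := norm_nonneg u
      have h7 := Lam_norm (𝕜 := 𝕜) k u.1 u.2.2
      have h8 : ‖u.2.1 - Lam 𝕜 k u.1 u.2.2 • e 𝕜 k‖ ≤ ‖u.2.1‖ + ‖Lam 𝕜 k u.1 u.2.2‖ := by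
        refine (norm_sub_le _ _).trans ?_
        rw [norm_smul, norm_e, mul_one]
      show ‖(_, _, _)‖ ≤ _
      rw [Prod.norm_mk, Prod.norm_mk]
      exact max_le (by linarith) (max_le (by linarith) (by linarith)))

theorem tauG_apply (k : ℕ) (u : X 𝕜) : tauG 𝕜 k u = (((2 : ℝ) : 𝕜) * u.1,
    diagE (fun i => (rW k i)⁻¹) 4 (rW_inv_le k) (u.2.1 - Lam 𝕜 k u.1 u.2.2 • e 𝕜 k),
    diagE (fun q => (rZ k q)⁻¹) 4 (rZ_inv_le k) u.2.2) := rfl

theorem diag_inv {ι : Type} (c : ι → ℝ) (hc : ∀ i, 0 < c i) (B B' : ℝ) (h : ∀ i, |c i| ≤ B)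
    (h' : ∀ i, |(c i)⁻¹| ≤ B') (u : E 𝕜 ι) :
    diagE (fun i => (c i)⁻¹) B' h' (diagE c B h u) = u := by
  ext i
  rw [diagE_apply, diagE_apply, ← mul_assoc, ← RCLike.ofReal_mul, inv_mul_cancel₀ (hc i).ne',
    RCLike.ofReal_one, one_mul]

theorem diag_inv' {ι : Type} (c : ι → ℝ) (hc : ∀ i, 0 < c i) (B B' : ℝ) (h : ∀ i, |c i| ≤ B)
    (h' : ∀ i, |(c i)⁻¹| ≤ B') (u : E 𝕜 ι) :
    diagE c B h (diagE (fun i => (c i)⁻¹) B' h' u) = u := by
  ext i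
  rw [diagE_apply, diagE_apply, ← mul_assoc, ← RCLike.ofReal_mul, mul_inv_cancel₀ (hc i).ne',
    RCLike.ofReal_one, one_mul]

theorem tauG_tauF (k : ℕ) (u : X 𝕜) : tauG 𝕜 k (tauF 𝕜 k u) = u := by
  rw [tauF_apply, tauG_apply]
  refine Prod.ext ?_ (Prod.ext ?_ ?_)
  · show ((2 : ℝ) : 𝕜) * (((1 / 2 : ℝ) : 𝕜) * u.1) = u.1
    rw [← mul_assoc, ← RCLike.ofReal_mul]
    norm_num
  · show diagE _ _ _ ((_ + _) - _) = _
    rw [add_sub_cancel_right]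
    exact diag_inv _ (rW_pos k) _ _ _ _ _
  · exact diag_inv _ (rZ_pos k) _ _ _ _ _

theorem tauF_tauG (k : ℕ) (u : X 𝕜) : tauF 𝕜 k (tauG 𝕜 k u) = u := by
  rw [tauG_apply, tauF_apply]
  have h1 : ((1 / 2 : ℝ) : 𝕜) * (((2 : ℝ) : 𝕜) * u.1) = u.1 := by
    rw [← mul_assoc, ← RCLike.ofReal_mul]
    norm_num
  have h2 := diag_inv' (𝕜 := 𝕜) (rZ k) (rZ_pos k) 2 4 (rZ_le k) (rZ_inv_le k) u.2.2
  have h3 := diag_inv' (𝕜 := 𝕜) (rW k) (rW_pos k) 2 4 (rW_le k) (rW_inv_le k)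
    (u.2.1 - Lam 𝕜 k u.1 u.2.2 • e 𝕜 k)
  refine Prod.ext h1 (Prod.ext ?_ h2)
  show diagE (rW k) 2 (rW_le k) (diagE (fun i => (rW k i)⁻¹) 4 (rW_inv_le k)
    (u.2.1 - Lam 𝕜 k u.1 u.2.2 • e 𝕜 k)) +
      Lam 𝕜 k (((1 / 2 : ℝ) : 𝕜) * (((2 : ℝ) : 𝕜) * u.1)) (diagE (rZ k) 2 (rZ_le k)
        (diagE (fun q => (rZ k q)⁻¹) 4 (rZ_inv_le k) u.2.2)) • e 𝕜 k = u.2.1
  rw [h1, h2, h3, sub_add_cancel]

/-- The transition as an isomorphism. -/
noncomputable def tauN (𝕜 : Type) [RCLike 𝕜] (k : ℕ) : X 𝕜 ≃L[𝕜] X 𝕜 :=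
  ContinuousLinearEquiv.equivOfInverse (tauF 𝕜 k) (tauG 𝕜 k) (tauG_tauF k) (tauF_tauG k)

/-- Multiplication by two. -/
noncomputable def two (𝕜 : Type) [RCLike 𝕜] : X 𝕜 ≃L[𝕜] X 𝕜 :=
  ContinuousLinearEquiv.equivOfInverse (((2 : ℝ) : 𝕜) • ContinuousLinearMap.id 𝕜 (X 𝕜))
    (((1 / 2 : ℝ) : 𝕜) • ContinuousLinearMap.id 𝕜 (X 𝕜))
    (fun u => by
      show ((1 / 2 : ℝ) : 𝕜) • (((2 : ℝ) : 𝕜) • u) = u
      rw [smul_smul, ← RCLike.ofReal_mul]; norm_num)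
    (fun u => by
      show ((2 : ℝ) : 𝕜) • (((1 / 2 : ℝ) : 𝕜) • u) = u
      rw [smul_smul, ← RCLike.ofReal_mul]; norm_num)

theorem two_apply (u : X 𝕜) : two 𝕜 u = ((2 : ℝ) : 𝕜) • u := rfl

/-- The transition from time `k - 1` to time `k`, for all integers `k`. -/
noncomputable def tau (𝕜 : Type) [RCLike 𝕜] (k : ℤ) : X 𝕜 ≃L[𝕜] X 𝕜 :=
  if k ≤ 0 then two 𝕜 else tauN 𝕜 k.toNat

theorem tau_norm (k : ℤ) (u : X 𝕜) : ‖tau 𝕜 k u‖ ≤ 12 * ‖u‖ := by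
  unfold tau
  split_ifs with h
  · rw [two_apply, norm_smul, RCLike.norm_ofReal, abs_of_pos (by norm_num)]
    linarith [norm_nonneg u]
  · exact (tauF 𝕜 k.toNat).le_of_opNorm_le (LinearMap.mkContinuous_norm_le _ (by norm_num) _) u

theorem tau_symm_norm (k : ℤ) (u : X 𝕜) : ‖(tau 𝕜 k).symm u‖ ≤ 12 * ‖u‖ := by
  unfold tau
  split_ifs with h
  · show ‖((1 / 2 : ℝ) : 𝕜) • u‖ ≤ _
    rw [norm_smul, RCLike.norm_ofReal, abs_of_pos (by norm_num)]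
    linarith [norm_nonneg u]
  · exact (tauG 𝕜 k.toNat).le_of_opNorm_le (LinearMap.mkContinuous_norm_le _ (by norm_num) _) u

/-! ### Amplitudes -/

/-- Amplitudes of the middle coordinates. -/
noncomputable def aW (i : ℕ) : ℕ → ℝ
  | 0 => 1
  | n + 1 => rW (n + 1) i * aW i n

/-- Amplitudes of the last coordinates. -/
noncomputable def aZ (q : ℕ × ℕ) : ℕ → ℝ
  | 0 => 1
  | n + 1 => rZ (n + 1) q * aZ q n

theorem aW_pos (i n : ℕ) : 0 < aW i n := by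
  induction n with
  | zero => exact one_pos
  | succ n ih => exact mul_pos (rW_pos _ _) ih

theorem aZ_pos (q : ℕ × ℕ) (n : ℕ) : 0 < aZ q n := by
  induction n with
  | zero => exact one_pos
  | succ n ih => exact mul_pos (rZ_pos _ _) ih

theorem aW_diag (i n : ℕ) (h : n ≤ i) : aW i n = (1 / 4) ^ n := by
  induction n with
  | zero => rw [pow_zero]; rfl
  | succ n ih =>
    show rW (n + 1) i * aW i n = _
    rw [ih (by omega), rW, if_pos h, pow_succ']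

theorem aZ_diag (q : ℕ × ℕ) (n : ℕ) (h : n ≤ q.1) : aZ q n = (1 / 2) ^ n := by
  induction n with
  | zero => rw [pow_zero]; rfl
  | succ n ih =>
    show rZ (n + 1) q * aZ q n = _
    rw [ih (by omega), rZ, if_pos h, pow_succ']

theorem aW_up (i n : ℕ) (h : n ≤ 2 * i) : aW i (i + n) = (1 / 4) ^ i * 2 ^ n := by
  induction n with
  | zero => rw [add_zero, aW_diag i i le_rfl, pow_zero, mul_one]
  | succ n ih =>
    show rW (i + n + 1) i * aW i (i + n) = _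
    rw [ih (by omega), rW, if_neg (by omega), if_pos (by omega), pow_succ]
    ring

theorem aZ_up (q : ℕ × ℕ) (n : ℕ) (h : n ≤ 5 * q.1) :
    aZ q (q.1 + n) = (1 / 2) ^ q.1 * 2 ^ n := by
  induction n with
  | zero => rw [add_zero, aZ_diag q q.1 le_rfl, pow_zero, mul_one]
  | succ n ih =>
    show rZ (q.1 + n + 1) q * aZ q (q.1 + n) = _
    rw [ih (by omega), rZ, if_neg (by omega), if_pos (by omega), pow_succ]
    ring

theorem aW_peak (i : ℕ) : aW i (3 * i) = 1 := by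
  have h := aW_up i (2 * i) le_rfl
  have e1 : i + 2 * i = 3 * i := by ring
  rw [e1] at h
  rw [h, pow_mul, ← mul_pow]
  norm_num

theorem aZ_peak (q : ℕ × ℕ) : aZ q (6 * q.1) = 16 ^ q.1 := by
  have h := aZ_up q (5 * q.1) le_rfl
  have e1 : q.1 + 5 * q.1 = 6 * q.1 := by ring
  rw [e1] at h
  rw [h, pow_mul, ← mul_pow]
  norm_num

theorem aW_bound (i n : ℕ) : aW i n ≤ 4 ^ (min n (3 * i)) * (1 / 2) ^ n := by
  induction n with
  | zero => simp [aW]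
  | succ n ih =>
    show rW (n + 1) i * aW i n ≤ _
    have h1 := aW_pos i n
    rcases le_or_gt (n + 1) (3 * i) with h | h
    · rw [min_eq_left h]
      rw [min_eq_left (by omega)] at ih
      have h2 : rW (n + 1) i ≤ 2 := (le_abs_self _).trans (rW_le _ _)
      calc rW (n + 1) i * aW i n ≤ 2 * (4 ^ n * (1 / 2) ^ n) :=
            mul_le_mul h2 ih h1.le (by norm_num)
        _ = 4 ^ (n + 1) * (1 / 2) ^ (n + 1) := by rw [pow_succ, pow_succ]; ring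
    · rw [min_eq_right h.le]
      rw [min_eq_right (by omega)] at ih
      have h2 : rW (n + 1) i = 1 / 2 := by
        rw [rW, if_neg (by omega), if_neg (by omega)]
      rw [h2, pow_succ (1 / 2 : ℝ) n]
      linarith

theorem aZ_bound (q : ℕ × ℕ) (n : ℕ) : aZ q n ≤ 4 ^ (min n (6 * q.1)) * (1 / 2) ^ n := by
  induction n with
  | zero => simp [aZ]
  | succ n ih =>
    show rZ (n + 1) q * aZ q n ≤ _
    have h1 := aZ_pos q n
    rcases le_or_gt (n + 1) (6 * q.1) with h | h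
    · rw [min_eq_left h]
      rw [min_eq_left (by omega)] at ih
      have h2 : rZ (n + 1) q ≤ 2 := (le_abs_self _).trans (rZ_le _ _)
      calc rZ (n + 1) q * aZ q n ≤ 2 * (4 ^ n * (1 / 2) ^ n) :=
            mul_le_mul h2 ih h1.le (by norm_num)
        _ = 4 ^ (n + 1) * (1 / 2) ^ (n + 1) := by rw [pow_succ, pow_succ]; ring
    · rw [min_eq_right h.le]
      rw [min_eq_right (by omega)] at ih
      have h2 : rZ (n + 1) q = 1 / 2 := by
        rw [rZ, if_neg (by omega), if_neg (by omega)]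
      rw [h2, pow_succ (1 / 2 : ℝ) n]
      linarith

theorem aW_bound' (i n : ℕ) : aW i n ≤ 64 ^ i * (1 / 2) ^ n := by
  refine (aW_bound i n).trans (mul_le_mul_of_nonneg_right ?_ (by positivity))
  have h : (64 : ℝ) ^ i = 4 ^ (3 * i) := by rw [pow_mul]; norm_num
  rw [h]
  exact pow_le_pow_right₀ (by norm_num) (min_le_right _ _)

theorem aZ_bound' (q : ℕ × ℕ) (n : ℕ) : aZ q n ≤ 4 ^ (6 * q.1) * (1 / 2) ^ n :=
  (aZ_bound q n).trans (mul_le_mul_of_nonneg_right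
    (pow_le_pow_right₀ (by norm_num) (min_le_right _ _)) (by positivity))

/-! ### Orbits -/

/-- Coefficients of the tested functionals. -/
noncomputable def L (i : ℕ) (q : ℕ × ℕ) : ℝ := if q.2 ≤ i ∧ i ≤ q.1 then -2 ^ q.2 else 0

theorem cf_aZ (k : ℕ) (q : ℕ × ℕ) : cf k q * aZ q k = L k q * aW k k := by
  unfold cf L
  split_ifs with h
  · rw [aZ_diag q k h.2, aW_diag k k le_rfl]
    have h1 : ((1 : ℝ) / 4) ^ k = (1 / 2) ^ k * (1 / 2) ^ k := by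
      rw [← mul_pow]; norm_num
    have h2 : (2 : ℝ) ^ q.2 / 2 ^ k = 2 ^ q.2 * (1 / 2) ^ k := by
      rw [one_div, inv_pow]; rfl
    rw [h1, h2]; ring
  · rw [zero_mul, zero_mul]

/-- The orbit of the first unit vector. -/
noncomputable def oS (𝕜 : Type) [RCLike 𝕜] (n : ℕ) : X 𝕜 :=
  ((((1 / 2 : ℝ) ^ n : ℝ) : 𝕜), ∑ i ∈ Finset.Icc 1 n, ((aW i n : ℝ) : 𝕜) • e 𝕜 i, 0)

/-- The orbit of the middle unit vectors. -/
noncomputable def oW (𝕜 : Type) [RCLike 𝕜] (i n : ℕ) : X 𝕜 :=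
  (0, ((aW i n : ℝ) : 𝕜) • e 𝕜 i, 0)

/-- The orbit of the last unit vectors. -/
noncomputable def oZ (𝕜 : Type) [RCLike 𝕜] (q : ℕ × ℕ) (n : ℕ) : X 𝕜 :=
  (0, ∑ i ∈ Finset.Icc 1 n, ((L i q * aW i n : ℝ) : 𝕜) • e 𝕜 i, ((aZ q n : ℝ) : 𝕜) • e 𝕜 q)

theorem diag_sum (c : ℕ → ℝ) (n : ℕ) :
    diagE (rW (n + 1)) 2 (rW_le (n + 1)) (∑ i ∈ Finset.Icc 1 n, ((c i * aW i n : ℝ) : 𝕜) • e 𝕜 i) =
      ∑ i ∈ Finset.Icc 1 n, ((c i * aW i (n + 1) : ℝ) : 𝕜) • e 𝕜 i := by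
  rw [map_sum]
  refine Finset.sum_congr rfl fun i _ => ?_
  rw [map_smul, diagE_e, smul_smul, ← RCLike.ofReal_mul]
  congr 2
  show c i * aW i n * rW (n + 1) i = c i * (rW (n + 1) i * aW i n)
  ring

theorem oS_succ (n : ℕ) : tauN 𝕜 (n + 1) (oS 𝕜 n) = oS 𝕜 (n + 1) := by
  show tauF 𝕜 (n + 1) (oS 𝕜 n) = _
  rw [tauF_apply]
  unfold oS
  have h0 := diag_sum (𝕜 := 𝕜) (fun _ => 1) n
  simp only [one_mul] at h0
  have h1 : ((1 / 2 : ℝ) : 𝕜) * (((1 / 2 : ℝ) ^ n : ℝ) : 𝕜) = (((1 / 2 : ℝ) ^ (n + 1) : ℝ) : 𝕜) := by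
    rw [← RCLike.ofReal_mul, ← pow_succ']
  refine Prod.ext h1 (Prod.ext ?_ ?_)
  · show diagE (rW (n + 1)) 2 (rW_le (n + 1)) (∑ i ∈ Finset.Icc 1 n, ((aW i n : ℝ) : 𝕜) • e 𝕜 i) +
      Lam 𝕜 (n + 1) (((1 / 2 : ℝ) : 𝕜) * (((1 / 2 : ℝ) ^ n : ℝ) : 𝕜))
        (diagE (rZ (n + 1)) 2 (rZ_le (n + 1)) 0) • e 𝕜 (n + 1) = _
    rw [h0, h1, map_zero, Lam, map_zero, add_zero, Finset.sum_Icc_succ_top (by omega),
      ← RCLike.ofReal_mul, aW_diag (n + 1) (n + 1) le_rfl, ← mul_pow]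
    norm_num
  · show diagE (rZ (n + 1)) 2 (rZ_le (n + 1)) 0 = 0
    rw [map_zero]

theorem oW_succ (i n : ℕ) : tauN 𝕜 (n + 1) (oW 𝕜 i n) = oW 𝕜 i (n + 1) := by
  show tauF 𝕜 (n + 1) (oW 𝕜 i n) = _
  rw [tauF_apply]
  unfold oW
  refine Prod.ext (mul_zero _) (Prod.ext ?_ ?_)
  · show diagE (rW (n + 1)) 2 (rW_le (n + 1)) (((aW i n : ℝ) : 𝕜) • e 𝕜 i) +
      Lam 𝕜 (n + 1) (((1 / 2 : ℝ) : 𝕜) * 0)
        (diagE (rZ (n + 1)) 2 (rZ_le (n + 1)) 0) • e 𝕜 (n + 1) =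
      ((rW (n + 1) i * aW i n : ℝ) : 𝕜) • e 𝕜 i
    rw [mul_zero, map_zero, Lam, map_zero, mul_zero, add_zero, zero_smul, add_zero, map_smul,
      diagE_e, smul_smul, ← RCLike.ofReal_mul, mul_comm]
  · show diagE (rZ (n + 1)) 2 (rZ_le (n + 1)) 0 = 0
    rw [map_zero]

theorem oZ_succ (q : ℕ × ℕ) (n : ℕ) : tauN 𝕜 (n + 1) (oZ 𝕜 q n) = oZ 𝕜 q (n + 1) := by
  show tauF 𝕜 (n + 1) (oZ 𝕜 q n) = _
  rw [tauF_apply]
  unfold oZ
  have h0 := diag_sum (𝕜 := 𝕜) (fun i => L i q) n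
  have h2 : diagE (rZ (n + 1)) 2 (rZ_le (n + 1)) (((aZ q n : ℝ) : 𝕜) • e 𝕜 q) =
      ((aZ q (n + 1) : ℝ) : 𝕜) • e 𝕜 q := by
    rw [map_smul, diagE_e, smul_smul, ← RCLike.ofReal_mul, mul_comm]
    rfl
  refine Prod.ext (mul_zero _) (Prod.ext ?_ h2)
  show diagE (rW (n + 1)) 2 (rW_le (n + 1))
      (∑ i ∈ Finset.Icc 1 n, ((L i q * aW i n : ℝ) : 𝕜) • e 𝕜 i) +
    Lam 𝕜 (n + 1) (((1 / 2 : ℝ) : 𝕜) * 0)
      (diagE (rZ (n + 1)) 2 (rZ_le (n + 1)) (((aZ q n : ℝ) : 𝕜) • e 𝕜 q)) • e 𝕜 (n + 1) = _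
  rw [h0, h2, mul_zero, Lam, map_smul, funcE_e, mul_zero, zero_add, smul_eq_mul,
    ← RCLike.ofReal_mul, mul_comm (aZ q (n + 1)), cf_aZ, Finset.sum_Icc_succ_top (by omega)]

end Tau2


section Ext

variable {𝕜 : Type} [RCLike 𝕜]

/-- Extension of an orbit to all integer times. -/
noncomputable def ext (o : ℕ → X 𝕜) : ℤ → X 𝕜
  | Int.ofNat n => o n
  | Int.negSucc n => (((1 / 2 : ℝ) ^ (n + 1) : ℝ) : 𝕜) • o 0

theorem ext_tau (o : ℕ → X 𝕜) (ho : ∀ n, tauN 𝕜 (n + 1) (o n) = o (n + 1)) (k : ℤ) :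
    tau 𝕜 k (ext o (k - 1)) = ext o k := by
  rcases k with n | n
  · rcases n with _ | n
    · have e1 : (Int.ofNat 0 - 1 : ℤ) = Int.negSucc 0 := rfl
      have e2 : tau 𝕜 (Int.ofNat 0) = two 𝕜 := by
        unfold tau; rw [if_pos (by simp)]
      rw [e1, e2, two_apply]
      show ((2 : ℝ) : 𝕜) • ((((1 / 2 : ℝ) ^ (0 + 1) : ℝ) : 𝕜) • o 0) = o 0
      rw [smul_smul, ← RCLike.ofReal_mul]
      norm_num
    · have e1 : (Int.ofNat (n + 1) - 1 : ℤ) = Int.ofNat n := by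
        simp
      have e2 : tau 𝕜 (Int.ofNat (n + 1)) = tauN 𝕜 (n + 1) := by
        unfold tau
        rw [if_neg (by simp)]
        rfl
      rw [e1, e2]
      exact ho n
  · have e1 : (Int.negSucc n - 1 : ℤ) = Int.negSucc (n + 1) := rfl
    have e2 : tau 𝕜 (Int.negSucc n) = two 𝕜 := by
      unfold tau
      rw [if_pos (by have := Int.negSucc_lt_zero n; omega)]
    rw [e1, e2, two_apply]
    show ((2 : ℝ) : 𝕜) • ((((1 / 2 : ℝ) ^ (n + 1 + 1) : ℝ) : 𝕜) • o 0) =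
      (((1 / 2 : ℝ) ^ (n + 1) : ℝ) : 𝕜) • o 0
    rw [smul_smul, ← RCLike.ofReal_mul, pow_succ (1 / 2 : ℝ) (n + 1)]
    congr 2
    ring

theorem ext_bound (o : ℕ → X 𝕜) (C : ℝ) (M : ℕ) (h : ∀ n, n ≤ M → ‖o n‖ ≤ C * (1 / 2) ^ n)
    (k : ℤ) (hk : k ≤ M) : ‖ext o k‖ ≤ C * (1 / 2) ^ k.natAbs := by
  rcases k with n | n
  · exact h n (by simpa using hk)
  · show ‖(((1 / 2 : ℝ) ^ (n + 1) : ℝ) : 𝕜) • o 0‖ ≤ C * (1 / 2) ^ (n + 1)
    rw [norm_smul, RCLike.norm_ofReal, abs_of_pos (by positivity)]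
    have h0 := h 0 (Nat.zero_le _)
    rw [pow_zero, mul_one] at h0
    have h1 : (0 : ℝ) < (1 / 2) ^ (n + 1) := by positivity
    nlinarith

theorem ext_add (o o' : ℕ → X 𝕜) (k : ℤ) :
    ext (fun n => o n + o' n) k = ext o k + ext o' k := by
  rcases k with n | n
  · rfl
  · show _ • (_ + _) = _ • _ + _ • _
    rw [smul_add]

theorem ext_smul (a : 𝕜) (o : ℕ → X 𝕜) (k : ℤ) :
    ext (fun n => a • o n) k = a • ext o k := by
  rcases k with n | n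
  · rfl
  · show _ • (a • _) = a • (_ • _)
    rw [smul_comm]

theorem norm_sum_e (s : Finset ℕ) (c : ℕ → ℝ) :
    ‖∑ i ∈ s, ((c i : ℝ) : 𝕜) • e 𝕜 i‖ ≤ ∑ i ∈ s, |c i| := by
  refine (norm_sum_le _ _).trans (Finset.sum_le_sum fun i _ => ?_)
  rw [norm_smul, norm_e, mul_one, RCLike.norm_ofReal]

theorem oW_norm (i n : ℕ) : ‖oW 𝕜 i n‖ ≤ 64 ^ i * (1 / 2) ^ n := by
  unfold oW
  rw [Prod.norm_mk, Prod.norm_mk, norm_zero, norm_zero, norm_smul, norm_e, mul_one,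
    RCLike.norm_ofReal, abs_of_pos (aW_pos i n)]
  exact max_le (by positivity) (max_le (aW_bound' i n) (by positivity))

theorem oZ_norm (q : ℕ × ℕ) (n : ℕ) : ‖oZ 𝕜 q n‖ ≤
    ((∑ i ∈ Finset.range (q.1 + 1), 2 ^ q.2 * 64 ^ i) + 4 ^ (6 * q.1)) * (1 / 2) ^ n := by
  unfold oZ
  have h0 : (0 : ℝ) ≤ ∑ i ∈ Finset.range (q.1 + 1), 2 ^ q.2 * 64 ^ i :=
    Finset.sum_nonneg fun i _ => by positivity
  rw [Prod.norm_mk, Prod.norm_mk, norm_zero]
  refine max_le (by positivity) (max_le ?_ ?_)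
  · refine (norm_sum_e _ _).trans ?_
    have h1 : ∑ i ∈ Finset.Icc 1 n, |L i q * aW i n| ≤
        ∑ i ∈ Finset.range (q.1 + 1), 2 ^ q.2 * 64 ^ i * (1 / 2) ^ n := by
      have h2 : ∀ i ∈ Finset.Icc 1 n, |L i q * aW i n| ≤
          if i ∈ Finset.range (q.1 + 1) then 2 ^ q.2 * 64 ^ i * (1 / 2) ^ n else 0 := by
        intro i _
        unfold L
        split_ifs with h3 h4 h4
        · rw [abs_mul, abs_neg, abs_of_pos (by positivity), abs_of_pos (aW_pos i n), mul_assoc]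
          exact mul_le_mul_of_nonneg_left (aW_bound' i n) (by positivity)
        · exfalso; apply h4; rw [Finset.mem_range]; omega
        · rw [zero_mul, abs_zero]; positivity
        · rw [zero_mul, abs_zero]
      refine (Finset.sum_le_sum h2).trans ?_
      rw [← Finset.sum_filter]
      apply Finset.sum_le_sum_of_subset_of_nonneg
      · intro i hi
        exact (Finset.mem_filter.1 hi).2
      · intro i _ _; positivity
    refine h1.trans ?_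
    rw [← Finset.sum_mul]
    exact mul_le_mul_of_nonneg_right (by
      have : (0 : ℝ) ≤ 4 ^ (6 * q.1) := by positivity
      linarith) (by positivity)
  · rw [norm_smul, norm_e, mul_one, RCLike.norm_ofReal, abs_of_pos (aZ_pos q n)]
    exact (aZ_bound' q n).trans (mul_le_mul_of_nonneg_right (by linarith) (by positivity))

/-- The truncated orbit. -/
noncomputable def oT (𝕜 : Type) [RCLike 𝕜] (q : ℕ × ℕ) (n : ℕ) : X 𝕜 :=
  oS 𝕜 n + (((1 / 2 : ℝ) ^ q.2 : ℝ) : 𝕜) • oZ 𝕜 q n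

theorem oT_succ (q : ℕ × ℕ) (n : ℕ) : tauN 𝕜 (n + 1) (oT 𝕜 q n) = oT 𝕜 q (n + 1) := by
  unfold oT
  rw [map_add, map_smul, oS_succ, oZ_succ]

theorem oT_norm (q : ℕ × ℕ) (n : ℕ) (hn : n ≤ q.1) : ‖oT 𝕜 q n‖ ≤
    (2 + ∑ i ∈ Finset.range q.2, 64 ^ i) * (1 / 2) ^ n := by
  have h0 : (0 : ℝ) ≤ ∑ i ∈ Finset.range q.2, 64 ^ i :=
    Finset.sum_nonneg fun i _ => by positivity
  have hp : (0 : ℝ) < (1 / 2) ^ n := by positivity
  have e1 : oT 𝕜 q n = ((((1 / 2 : ℝ) ^ n : ℝ) : 𝕜),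
      ∑ i ∈ Finset.Icc 1 n, (((1 + (1 / 2) ^ q.2 * L i q) * aW i n : ℝ) : 𝕜) • e 𝕜 i,
      (((1 / 2) ^ q.2 * aZ q n : ℝ) : 𝕜) • e 𝕜 q) := by
    unfold oT oS oZ
    refine Prod.ext ?_ (Prod.ext ?_ ?_)
    · show _ + _ * (0 : 𝕜) = _
      rw [mul_zero, add_zero]
    · show (∑ i ∈ Finset.Icc 1 n, ((aW i n : ℝ) : 𝕜) • e 𝕜 i) + (((1 / 2 : ℝ) ^ q.2 : ℝ) : 𝕜) •
        (∑ i ∈ Finset.Icc 1 n, ((L i q * aW i n : ℝ) : 𝕜) • e 𝕜 i) = _
      rw [Finset.smul_sum, ← Finset.sum_add_distrib]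
      refine Finset.sum_congr rfl fun i _ => ?_
      rw [smul_smul, ← add_smul, ← RCLike.ofReal_mul, ← RCLike.ofReal_add]
      congr 2
      ring
    · show (0 : E 𝕜 (ℕ × ℕ)) + _ • (_ • _) = _
      rw [zero_add, smul_smul, ← RCLike.ofReal_mul]
  rw [e1, Prod.norm_mk, Prod.norm_mk]
  refine max_le ?_ (max_le ?_ ?_)
  · rw [RCLike.norm_ofReal, abs_of_pos hp]
    nlinarith
  · refine (norm_sum_e _ _).trans ?_
    have h2 : ∀ i ∈ Finset.Icc 1 n, |(1 + (1 / 2) ^ q.2 * L i q) * aW i n| ≤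
        if i ∈ Finset.range q.2 then 64 ^ i * (1 / 2) ^ n else 0 := by
      intro i hi
      rw [Finset.mem_Icc] at hi
      split_ifs with h4
      · rw [Finset.mem_range] at h4
        unfold L
        rw [if_neg (by omega), mul_zero, add_zero, one_mul, abs_of_pos (aW_pos i n)]
        exact aW_bound' i n
      · rw [Finset.mem_range] at h4
        unfold L
        rw [if_pos ⟨by omega, by omega⟩]
        have h5 : (1 : ℝ) + (1 / 2) ^ q.2 * -2 ^ q.2 = 0 := by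
          have : ((1 : ℝ) / 2) ^ q.2 * 2 ^ q.2 = 1 := by rw [← mul_pow]; norm_num
          linarith
        rw [h5, zero_mul, abs_zero]
    refine (Finset.sum_le_sum h2).trans ?_
    rw [← Finset.sum_filter]
    have h3 : ∑ i ∈ (Finset.Icc 1 n).filter (· ∈ Finset.range q.2), (64 : ℝ) ^ i * (1 / 2) ^ n ≤
        ∑ i ∈ Finset.range q.2, 64 ^ i * (1 / 2) ^ n := by
      apply Finset.sum_le_sum_of_subset_of_nonneg
      · intro i hi
        exact (Finset.mem_filter.1 hi).2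
      · intro i _ _; positivity
    refine h3.trans ?_
    rw [← Finset.sum_mul]
    nlinarith
  · rw [norm_smul, norm_e, mul_one, RCLike.norm_ofReal, aZ_diag q n hn,
      abs_of_pos (by positivity)]
    have h5 : ((1 : ℝ) / 2) ^ q.2 ≤ 1 := pow_le_one₀ (by norm_num) (by norm_num)
    nlinarith

end Ext

/-! ### The shift operator on `ℓ^p(ℤ; X)` -/

section Outer

variable {𝕜 V : Type} [RCLike 𝕜] [NormedAddCommGroup V] [NormedSpace 𝕜 V]
  (p : ℝ≥0∞) [Fact (1 ≤ p)]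

theorem toReal_pos (hp : p ≠ ⊤) : 0 < p.toReal :=
  ENNReal.toReal_pos (zero_lt_one.trans_le Fact.out).ne' hp

/-- Weighted permutation operators. -/
noncomputable def wperm (hp : p ≠ ⊤) (σ : ℤ ≃ ℤ) (φ : ℤ → V →L[𝕜] V) (B : ℝ) (hB : 0 ≤ B)
    (h : ∀ n u, ‖φ n u‖ ≤ B * ‖u‖) :
    lp (fun _ : ℤ => V) p →L[𝕜] lp (fun _ : ℤ => V) p :=
  have hle : ∀ (x : lp (fun _ : ℤ => V) p) n, ‖φ n (x (σ n))‖ ^ p.toReal ≤
      B ^ p.toReal * ‖x (σ n)‖ ^ p.toReal := fun x n => by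
    rw [← Real.mul_rpow hB (norm_nonneg _)]
    exact Real.rpow_le_rpow (norm_nonneg _) (h n _) (toReal_pos p hp).le
  have hs0 : ∀ x : lp (fun _ : ℤ => V) p, Summable fun n => ‖x n‖ ^ p.toReal := fun x =>
    (memℓp_gen_iff (toReal_pos p hp)).1 (lp.memℓp x)
  have hs : ∀ x : lp (fun _ : ℤ => V) p, Summable fun n => B ^ p.toReal * ‖x (σ n)‖ ^ p.toReal :=
    fun x => ((σ.summable_iff (f := fun n => ‖x n‖ ^ p.toReal)).2 (hs0 x)).mul_left _
  have hs' : ∀ x : lp (fun _ : ℤ => V) p, Summable fun n => ‖φ n (x (σ n))‖ ^ p.toReal :=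
    fun x => Summable.of_nonneg_of_le (fun n => by positivity) (hle x) (hs x)
  LinearMap.mkContinuous
    { toFun := fun x => ⟨fun n => φ n (x (σ n)), (memℓp_gen_iff (toReal_pos p hp)).2 (hs' x)⟩
      map_add' := fun x y => by
        ext n : 2
        exact map_add (φ n) _ _
      map_smul' := fun a x => by
        ext n : 2
        exact map_smul (φ n) _ _ } B (fun x => by
      refine lp.norm_le_of_tsum_le (toReal_pos p hp) (by positivity) ?_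
      rw [Real.mul_rpow hB (norm_nonneg _), lp.norm_rpow_eq_tsum (toReal_pos p hp) x,
        ← σ.tsum_eq (fun n => ‖x n‖ ^ p.toReal), ← tsum_mul_left]
      exact Summable.tsum_le_tsum (hle x) (hs' x) (hs x))

theorem wperm_apply (hp : p ≠ ⊤) (σ : ℤ ≃ ℤ) (φ : ℤ → V →L[𝕜] V) (B : ℝ) (hB : 0 ≤ B)
    (h : ∀ n u, ‖φ n u‖ ≤ B * ‖u‖) (x : lp (fun _ : ℤ => V) p) (n : ℤ) :
    (wperm p hp σ φ B hB h x) n = φ n (x (σ n)) := rfl

end Outer


section GoodSub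

variable {𝕜 Y : Type} [RCLike 𝕜] [NormedAddCommGroup Y] [NormedSpace 𝕜 Y]

theorem good_zero (T : Y ≃L[𝕜] Y) : Good T 0 := by
  intro η hη
  refine ⟨0, fun K => ⟨0, ?_, fun k _ => ?_⟩⟩
  · rw [sub_zero, norm_zero]; exact hη.le
  · rw [map_zero, norm_zero, zero_mul]

theorem good_add (T : Y ≃L[𝕜] Y) {y y' : Y} (h : Good T y) (h' : Good T y') : Good T (y + y') := by
  intro η hη
  obtain ⟨C, hC⟩ := h (η / 2) (by linarith)
  obtain ⟨C', hC'⟩ := h' (η / 2) (by linarith)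
  refine ⟨C + C', fun K => ?_⟩
  obtain ⟨w, hw1, hw2⟩ := hC K
  obtain ⟨w', hw1', hw2'⟩ := hC' K
  refine ⟨w + w', ?_, fun k hk => ?_⟩
  · have e1 : w + w' - (y + y') = (w - y) + (w' - y') := by abel
    rw [e1]
    exact (norm_add_le _ _).trans (by linarith)
  · rw [map_add, add_mul]
    exact (norm_add_le _ _).trans (add_le_add (hw2 k hk) (hw2' k hk))

theorem good_smul (T : Y ≃L[𝕜] Y) (a : 𝕜) {y : Y} (h : Good T y) : Good T (a • y) := by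
  intro η hη
  obtain ⟨C, hC⟩ := h (η / (‖a‖ + 1)) (by positivity)
  refine ⟨‖a‖ * C, fun K => ?_⟩
  obtain ⟨w, hw1, hw2⟩ := hC K
  refine ⟨a • w, ?_, fun k hk => ?_⟩
  · rw [← smul_sub, norm_smul]
    have h1 : 0 ≤ ‖a‖ := norm_nonneg a
    calc ‖a‖ * ‖w - y‖ ≤ (‖a‖ + 1) * (η / (‖a‖ + 1)) :=
          mul_le_mul (by linarith) hw1 (norm_nonneg _) (by linarith)
      _ = η := by field_simp
  · rw [map_smul, norm_smul, mul_assoc]
    exact mul_le_mul_of_nonneg_left (hw2 k hk) (norm_nonneg _)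

/-- The submodule of good vectors. -/
def GoodSub (T : Y ≃L[𝕜] Y) : Submodule 𝕜 Y where
  carrier := {y | Good T y}
  zero_mem' := good_zero T
  add_mem' := fun h h' => good_add T h h'
  smul_mem' := fun a _ h => good_smul T a h

theorem good_closed (T : Y ≃L[𝕜] Y) : IsClosed (GoodSub T : Set Y) := by
  rw [← isSeqClosed_iff_isClosed]
  intro y y₀ hy hlim η hη
  rw [Metric.tendsto_atTop] at hlim
  obtain ⟨N, hN⟩ := hlim (η / 2) (by linarith)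
  have h1 := hN N le_rfl
  rw [dist_eq_norm] at h1
  obtain ⟨C, hC⟩ := (show Good T (y N) from hy N) (η / 2) (by linarith)
  refine ⟨C, fun K => ?_⟩
  obtain ⟨w, hw1, hw2⟩ := hC K
  refine ⟨w, ?_, hw2⟩
  have e1 : w - y₀ = (w - y N) + (y N - y₀) := by abel
  rw [e1]
  exact (norm_add_le _ _).trans (by linarith)

end GoodSub

theorem half_pow (l k : ℤ) :
    ((1 : ℝ) / 2) ^ (l + k).natAbs ≤ 2 ^ l.natAbs * (1 / 2) ^ k.natAbs := by
  have h1 : k.natAbs ≤ (l + k).natAbs + l.natAbs := by omega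
  have h2 : ((1 : ℝ) / 2) ^ ((l + k).natAbs + l.natAbs) ≤ (1 / 2) ^ k.natAbs :=
    pow_le_pow_of_le_one (by norm_num) (by norm_num) h1
  have h3 : (2 : ℝ) ^ l.natAbs * (1 / 2) ^ l.natAbs = 1 := by rw [← mul_pow]; norm_num
  calc ((1 : ℝ) / 2) ^ (l + k).natAbs
      = 2 ^ l.natAbs * ((1 / 2) ^ ((l + k).natAbs + l.natAbs)) := by
        rw [pow_add]
        calc ((1 : ℝ) / 2) ^ (l + k).natAbs
            = (2 ^ l.natAbs * (1 / 2) ^ l.natAbs) * (1 / 2) ^ (l + k).natAbs := by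
              rw [h3, one_mul]
          _ = _ := by ring
    _ ≤ 2 ^ l.natAbs * (1 / 2) ^ k.natAbs := mul_le_mul_of_nonneg_left h2 (by positivity)

section Main

variable {𝕜 : Type} [RCLike 𝕜] {p : ℝ≥0∞} [Fact (1 ≤ p)]

/-- The space `ℓ^p(ℤ; X)`. -/
noncomputable abbrev Y (𝕜 : Type) [RCLike 𝕜] (p : ℝ≥0∞) := lp (fun _ : ℤ => X 𝕜) p

/-- The shift. -/
noncomputable def shiftF (hp : p ≠ ⊤) : Y 𝕜 p →L[𝕜] Y 𝕜 p :=
  wperm p hp (Equiv.addRight 1) (fun n => ((tau 𝕜 (n + 1)).symm : X 𝕜 →L[𝕜] X 𝕜)) 12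
    (by norm_num) (fun n u => tau_symm_norm _ _)

/-- The inverse of the shift. -/
noncomputable def shiftG (hp : p ≠ ⊤) : Y 𝕜 p →L[𝕜] Y 𝕜 p :=
  wperm p hp (Equiv.addRight (-1)) (fun n => (tau 𝕜 n : X 𝕜 →L[𝕜] X 𝕜)) 12
    (by norm_num) (fun n u => tau_norm _ _)

theorem shiftF_apply (hp : p ≠ ⊤) (x : Y 𝕜 p) (n : ℤ) :
    (shiftF hp x) n = (tau 𝕜 (n + 1)).symm (x (n + 1)) := rfl

theorem shiftG_apply (hp : p ≠ ⊤) (x : Y 𝕜 p) (n : ℤ) :
    (shiftG hp x) n = tau 𝕜 n (x (n - 1)) := rfl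

/-- The shift as an isomorphism. -/
noncomputable def shiftE (hp : p ≠ ⊤) : Y 𝕜 p ≃L[𝕜] Y 𝕜 p :=
  ContinuousLinearEquiv.equivOfInverse (shiftF hp) (shiftG hp)
    (fun x => by
      ext n : 2
      rw [shiftG_apply, shiftF_apply, sub_add_cancel, ContinuousLinearEquiv.apply_symm_apply])
    (fun x => by
      ext n : 2
      rw [shiftF_apply, shiftG_apply, add_sub_cancel_right,
        ContinuousLinearEquiv.symm_apply_apply])

/-- The vector with value `u` at coordinate `l`. -/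
noncomputable def sg (p : ℝ≥0∞) (l : ℤ) (u : X 𝕜) : Y 𝕜 p := lp.single p l u

theorem sg_norm (l : ℤ) (u : X 𝕜) : ‖(sg p l u : Y 𝕜 p)‖ = ‖u‖ := by
  unfold sg
  exact lp.norm_single (E := fun _ : ℤ => X 𝕜) (zero_lt_one.trans_le (Fact.out : 1 ≤ p)) l u

theorem shiftG_sg (hp : p ≠ ⊤) (l : ℤ) (u : X 𝕜) :
    shiftG hp (sg p l u) = sg p (l + 1) (tau 𝕜 (l + 1) u) := by
  ext n : 2
  rw [shiftG_apply]
  unfold sg
  by_cases h : n = l + 1
  · subst h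
    rw [add_sub_cancel_right, lp.single_apply_self, lp.single_apply_self]
  · rw [lp.single_apply_ne _ _ _ h, lp.single_apply_ne _ _ _ (by omega), map_zero]

theorem shiftF_sg (hp : p ≠ ⊤) (l : ℤ) (u : X 𝕜) :
    shiftF hp (sg p l u) = sg p (l - 1) ((tau 𝕜 l).symm u) := by
  ext n : 2
  rw [shiftF_apply]
  unfold sg
  by_cases h : n = l - 1
  · subst h
    rw [sub_add_cancel, lp.single_apply_self, lp.single_apply_self]
  · rw [lp.single_apply_ne _ _ _ h, lp.single_apply_ne _ _ _ (by omega), map_zero]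

theorem neg_one_apply (hp : p ≠ ⊤) (x : Y 𝕜 p) :
    (shiftE hp ^ (-1 : ℤ) : Y 𝕜 p ≃L[𝕜] Y 𝕜 p) x = shiftG hp x := by
  rw [zpow_neg_one]; rfl

theorem one_apply (hp : p ≠ ⊤) (x : Y 𝕜 p) :
    (shiftE hp ^ (1 : ℤ) : Y 𝕜 p ≃L[𝕜] Y 𝕜 p) x = shiftF hp x := by
  rw [zpow_one]; rfl

theorem shift_orbit (hp : p ≠ ⊤) (o : ℕ → X 𝕜) (ho : ∀ n, tauN 𝕜 (n + 1) (o n) = o (n + 1))
    (l k : ℤ) : (shiftE hp ^ (-k) : Y 𝕜 p ≃L[𝕜] Y 𝕜 p) (sg p l (ext o l)) =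
      sg p (l + k) (ext o (l + k)) := by
  induction k using Int.induction_on with
  | zero => rw [neg_zero, zpow_zero_apply, add_zero]
  | succ n ih =>
    have e1 : (-((n : ℤ) + 1)) = (-1) + -(n : ℤ) := by ring
    rw [e1, zpow_add_apply, ih, neg_one_apply, shiftG_sg]
    have h1 := ext_tau o ho (l + n + 1)
    rw [add_sub_cancel_right] at h1
    rw [h1, add_assoc]
  | pred n ih =>
    have e1 : (-(-(n : ℤ) - 1)) = 1 + -(-(n : ℤ)) := by ring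
    rw [e1, zpow_add_apply, ih, one_apply, shiftF_sg]
    have h1 := ext_tau o ho (l + -n)
    rw [← h1, ContinuousLinearEquiv.symm_apply_apply]
    have e2 : l + -(n : ℤ) - 1 = l + (-(n : ℤ) - 1) := by ring
    rw [e2]

theorem good_orbit (hp : p ≠ ⊤) (o : ℕ → X 𝕜) (ho : ∀ n, tauN 𝕜 (n + 1) (o n) = o (n + 1))
    (C : ℝ) (hC : ∀ n, ‖o n‖ ≤ C * (1 / 2) ^ n) (l : ℤ) :
    Good (shiftE hp : Y 𝕜 p ≃L[𝕜] Y 𝕜 p) (sg p l (ext o l)) := by
  have hC0 : 0 ≤ C := by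
    have := (norm_nonneg _).trans (hC 0)
    simpa using this
  intro η hη
  refine ⟨C * 2 ^ l.natAbs, fun K => ⟨sg p l (ext o l), ?_, fun k hk => ?_⟩⟩
  · rw [sub_self, norm_zero]; exact hη.le
  · rw [shift_orbit hp o ho, sg_norm]
    refine (ext_bound o C ((l + k).toNat) (fun n _ => hC n) _ (Int.self_le_toNat _)).trans ?_
    rw [mul_assoc]
    exact mul_le_mul_of_nonneg_left (half_pow l k) hC0

theorem oZ_small (q : ℕ × ℕ) (n : ℕ) (h1 : n < q.2) (h2 : n ≤ q.1) :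
    ‖oZ 𝕜 q n‖ ≤ 1 * (1 / 2) ^ n := by
  have h3 : ∑ i ∈ Finset.Icc 1 n, ((L i q * aW i n : ℝ) : 𝕜) • e 𝕜 i = 0 := by
    refine Finset.sum_eq_zero fun i hi => ?_
    rw [Finset.mem_Icc] at hi
    have : L i q = 0 := by unfold L; rw [if_neg (by omega)]
    rw [this, zero_mul, RCLike.ofReal_zero, zero_smul]
  unfold oZ
  rw [h3, Prod.norm_mk, Prod.norm_mk, norm_zero, norm_zero, norm_smul, norm_e, mul_one,
    RCLike.norm_ofReal, aZ_diag q n h2, abs_of_pos (by positivity), one_mul]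
  exact max_le (by positivity) (max_le (by positivity) le_rfl)

theorem good_star (hp : p ≠ ⊤) (l : ℤ) :
    Good (shiftE hp : Y 𝕜 p ≃L[𝕜] Y 𝕜 p) (sg p l (ext (oS 𝕜) l)) := by
  intro η hη
  obtain ⟨j₀, hj₀⟩ := exists_pow_lt_of_lt_one hη (show (1 / 2 : ℝ) < 1 by norm_num)
  set j := max j₀ (l.natAbs + 1) with hj
  have hjη : ((1 : ℝ) / 2) ^ j ≤ η :=
    (pow_le_pow_of_le_one (by norm_num) (by norm_num) (le_max_left _ _)).trans hj₀.le
  have h0 : (0 : ℝ) ≤ 2 + ∑ i ∈ Finset.range j, 64 ^ i := by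
    have : (0 : ℝ) ≤ ∑ i ∈ Finset.range j, 64 ^ i := Finset.sum_nonneg fun i _ => by positivity
    linarith
  refine ⟨(2 + ∑ i ∈ Finset.range j, 64 ^ i) * 2 ^ l.natAbs, fun K => ?_⟩
  set q : ℕ × ℕ := (l.natAbs + K, j) with hq
  refine ⟨sg p l (ext (oT 𝕜 q) l), ?_, fun k hk => ?_⟩
  · have e1 : ext (oT 𝕜 q) l = ext (oS 𝕜) l +
        (((1 / 2 : ℝ) ^ q.2 : ℝ) : 𝕜) • ext (oZ 𝕜 q) l := by
      unfold oT
      rw [ext_add, ext_smul]
    have e2 : (sg p l (ext (oT 𝕜 q) l) : Y 𝕜 p) - sg p l (ext (oS 𝕜) l) =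
        sg p l ((((1 / 2 : ℝ) ^ q.2 : ℝ) : 𝕜) • ext (oZ 𝕜 q) l) := by
      unfold sg
      rw [← lp.single_sub, e1, add_sub_cancel_left]
    rw [e2, sg_norm, norm_smul, RCLike.norm_ofReal, abs_of_pos (by positivity)]
    have h1 := ext_bound (oZ 𝕜 q) 1 l.toNat (fun n hn => oZ_small q n (by
      show n < j
      have : l.natAbs + 1 ≤ j := le_max_right _ _
      omega) (by show n ≤ l.natAbs + K; omega)) l (Int.self_le_toNat _)
    have h2 : ‖ext (oZ 𝕜 q) l‖ ≤ 1 := by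
      refine h1.trans ?_
      rw [one_mul]
      exact pow_le_one₀ (by norm_num) (by norm_num)
    calc ((1 : ℝ) / 2) ^ q.2 * ‖ext (oZ 𝕜 q) l‖ ≤ (1 / 2) ^ j * 1 :=
          mul_le_mul_of_nonneg_left h2 (by positivity)
      _ ≤ η := by rw [mul_one]; exact hjη
  · rw [shift_orbit hp _ (oT_succ q), sg_norm]
    refine (ext_bound (oT 𝕜 q) (2 + ∑ i ∈ Finset.range j, 64 ^ i) q.1
      (fun n hn => oT_norm q n hn) _ (by
        show l + k ≤ ((l.natAbs + K : ℕ) : ℤ)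
        omega)).trans ?_
    rw [mul_assoc]
    exact mul_le_mul_of_nonneg_left (half_pow l k) h0

end Main

section Total

variable {𝕜 : Type} [RCLike 𝕜] {p : ℝ≥0∞} [Fact (1 ≤ p)]

/-- The insertion of a vector at coordinate `l`, as a continuous linear map. -/
noncomputable def sgL (𝕜 : Type) [RCLike 𝕜] (p : ℝ≥0∞) [Fact (1 ≤ p)] (l : ℤ) :
    X 𝕜 →L[𝕜] Y 𝕜 p :=
  LinearMap.mkContinuous
    { toFun := fun u => sg p l u
      map_add' := fun u w => by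
        unfold sg
        exact lp.single_add _ _ _ _
      map_smul' := fun a u => by
        unfold sg
        exact lp.single_smul _ _ _ _ } 1 (fun u => by
      rw [one_mul]
      exact (sg_norm l u).le)

theorem sgL_apply (l : ℤ) (u : X 𝕜) : sgL 𝕜 p l u = sg p l u := rfl

/-- Insertion of the middle component. -/
noncomputable def inW (𝕜 : Type) [RCLike 𝕜] : E 𝕜 ℕ →L[𝕜] X 𝕜 :=
  (ContinuousLinearMap.inr 𝕜 𝕜 (E 𝕜 ℕ × E 𝕜 (ℕ × ℕ))).comp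
    (ContinuousLinearMap.inl 𝕜 (E 𝕜 ℕ) (E 𝕜 (ℕ × ℕ)))

/-- Insertion of the last component. -/
noncomputable def inZ (𝕜 : Type) [RCLike 𝕜] : E 𝕜 (ℕ × ℕ) →L[𝕜] X 𝕜 :=
  (ContinuousLinearMap.inr 𝕜 𝕜 (E 𝕜 ℕ × E 𝕜 (ℕ × ℕ))).comp
    (ContinuousLinearMap.inr 𝕜 (E 𝕜 ℕ) (E 𝕜 (ℕ × ℕ)))

theorem inW_apply (w : E 𝕜 ℕ) : inW 𝕜 w = (0, w, 0) := rfl
theorem inZ_apply (z : E 𝕜 (ℕ × ℕ)) : inZ 𝕜 z = (0, 0, z) := rfl

theorem ext_oW (i : ℕ) (l : ℤ) : ∃ a : 𝕜, a ≠ 0 ∧ ext (oW 𝕜 i) l = a • inW 𝕜 (e 𝕜 i) := by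
  rcases l with n | n
  · refine ⟨((aW i n : ℝ) : 𝕜), RCLike.ofReal_ne_zero.2 (aW_pos i n).ne', ?_⟩
    show oW 𝕜 i n = _
    rw [← map_smul]
    rfl
  · refine ⟨(((1 / 2 : ℝ) ^ (n + 1) : ℝ) : 𝕜) * ((aW i 0 : ℝ) : 𝕜),
      mul_ne_zero (RCLike.ofReal_ne_zero.2 (by positivity))
        (RCLike.ofReal_ne_zero.2 (aW_pos i 0).ne'), ?_⟩
    show (((1 / 2 : ℝ) ^ (n + 1) : ℝ) : 𝕜) • oW 𝕜 i 0 = _
    rw [mul_smul, ← map_smul (inW 𝕜)]
    rfl

theorem ext_oZ (q : ℕ × ℕ) (l : ℤ) : ∃ (a : 𝕜) (w : E 𝕜 ℕ), a ≠ 0 ∧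
    ext (oZ 𝕜 q) l = a • inZ 𝕜 (e 𝕜 q) + inW 𝕜 w := by
  have key : ∀ n : ℕ, ∃ (a : 𝕜) (w : E 𝕜 ℕ), a ≠ 0 ∧
      oZ 𝕜 q n = a • inZ 𝕜 (e 𝕜 q) + inW 𝕜 w := fun n => by
    refine ⟨((aZ q n : ℝ) : 𝕜), ∑ i ∈ Finset.Icc 1 n, ((L i q * aW i n : ℝ) : 𝕜) • e 𝕜 i,
      RCLike.ofReal_ne_zero.2 (aZ_pos q n).ne', ?_⟩
    rw [← map_smul, inZ_apply, inW_apply]
    unfold oZ
    refine Prod.ext (add_zero _).symm (Prod.ext (zero_add _).symm (add_zero _).symm)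
  rcases l with n | n
  · exact key n
  · obtain ⟨a, w, ha, h⟩ := key 0
    refine ⟨(((1 / 2 : ℝ) ^ (n + 1) : ℝ) : 𝕜) * a, (((1 / 2 : ℝ) ^ (n + 1) : ℝ) : 𝕜) • w,
      mul_ne_zero (RCLike.ofReal_ne_zero.2 (by positivity)) ha, ?_⟩
    show (((1 / 2 : ℝ) ^ (n + 1) : ℝ) : 𝕜) • oZ 𝕜 q 0 = _
    rw [h, smul_add, smul_smul, map_smul (inW 𝕜)]

theorem ext_oS (l : ℤ) : (ext (oS 𝕜) l).1 ≠ 0 := by
  rcases l with n | n
  · exact RCLike.ofReal_ne_zero.2 (by positivity)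
  · show (((1 / 2 : ℝ) ^ (n + 1) : ℝ) : 𝕜) * (((1 / 2 : ℝ) ^ 0 : ℝ) : 𝕜) ≠ 0
    exact mul_ne_zero (RCLike.ofReal_ne_zero.2 (by positivity))
      (RCLike.ofReal_ne_zero.2 (by positivity))

theorem total_X (N : Submodule 𝕜 (X 𝕜)) (hN : IsClosed (N : Set (X 𝕜))) (l : ℤ)
    (hW : ∀ i, ext (oW 𝕜 i) l ∈ N) (hZ : ∀ q, ext (oZ 𝕜 q) l ∈ N) (hS : ext (oS 𝕜) l ∈ N)
    (u : X 𝕜) : u ∈ N := by
  have h1 : ∀ w : E 𝕜 ℕ, inW 𝕜 w ∈ N := by
    intro w
    refine total_E (N.comap (inW 𝕜 : E 𝕜 ℕ →ₗ[𝕜] X 𝕜)) (hN.preimage (inW 𝕜).continuous)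
      (fun i => ?_) w
    obtain ⟨a, ha, h⟩ := ext_oW (𝕜 := 𝕜) i l
    have h2 := hW i
    rw [h] at h2
    exact (N.smul_mem_iff ha).1 h2
  have h2 : ∀ z : E 𝕜 (ℕ × ℕ), inZ 𝕜 z ∈ N := by
    intro z
    refine total_E (N.comap (inZ 𝕜 : E 𝕜 (ℕ × ℕ) →ₗ[𝕜] X 𝕜)) (hN.preimage (inZ 𝕜).continuous)
      (fun q => ?_) z
    obtain ⟨a, w, ha, h⟩ := ext_oZ (𝕜 := 𝕜) q l
    have h3 := hZ q
    rw [h] at h3
    exact (N.smul_mem_iff ha).1 ((N.add_mem_iff_left (h1 w)).1 h3)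
  have h3 : ∀ c : 𝕜, ((c, 0, 0) : X 𝕜) ∈ N := by
    intro c
    have h4 := hS
    set s := ext (oS 𝕜) l with hs
    have h5 : s = ((s.1, 0, 0) : X 𝕜) + inZ 𝕜 s.2.2 + inW 𝕜 s.2.1 := by
      rw [inZ_apply, inW_apply]
      refine Prod.ext ?_ (Prod.ext ?_ ?_)
      · show s.1 = s.1 + 0 + 0
        rw [add_zero, add_zero]
      · show s.2.1 = 0 + 0 + s.2.1
        rw [add_zero, zero_add]
      · show s.2.2 = 0 + s.2.2 + 0
        rw [add_zero, zero_add]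
    rw [h5] at h4
    have h6 := (N.add_mem_iff_left (h2 s.2.2)).1 ((N.add_mem_iff_left (h1 s.2.1)).1 h4)
    have h7 : ((c, 0, 0) : X 𝕜) = (c / s.1) • ((s.1, 0, 0) : X 𝕜) := by
      refine Prod.ext ?_ (Prod.ext ?_ ?_)
      · show c = c / s.1 * s.1
        rw [div_mul_cancel₀ c (ext_oS l)]
      · show (0 : E 𝕜 ℕ) = (c / s.1) • 0
        rw [smul_zero]
      · show (0 : E 𝕜 (ℕ × ℕ)) = (c / s.1) • 0
        rw [smul_zero]
    rw [h7]
    exact N.smul_mem _ h6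
  have h8 : u = ((u.1, 0, 0) : X 𝕜) + inZ 𝕜 u.2.2 + inW 𝕜 u.2.1 := by
    rw [inZ_apply, inW_apply]
    refine Prod.ext ?_ (Prod.ext ?_ ?_)
    · show u.1 = u.1 + 0 + 0
      rw [add_zero, add_zero]
    · show u.2.1 = 0 + 0 + u.2.1
      rw [add_zero, zero_add]
    · show u.2.2 = 0 + u.2.2 + 0
      rw [add_zero, zero_add]
  rw [h8]
  exact N.add_mem (N.add_mem (h3 _) (h2 _)) (h1 _)

theorem total_Y (hp : p ≠ ⊤) (M : Submodule 𝕜 (Y 𝕜 p)) (hM : IsClosed (M : Set (Y 𝕜 p)))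
    (hW : ∀ l i, (sg p l (ext (oW 𝕜 i) l) : Y 𝕜 p) ∈ M)
    (hZ : ∀ l q, (sg p l (ext (oZ 𝕜 q) l) : Y 𝕜 p) ∈ M)
    (hS : ∀ l, (sg p l (ext (oS 𝕜) l) : Y 𝕜 p) ∈ M) (y : Y 𝕜 p) : y ∈ M := by
  have h1 : ∀ l u, (sg p l u : Y 𝕜 p) ∈ M := by
    intro l u
    exact total_X (M.comap (sgL 𝕜 p l : X 𝕜 →ₗ[𝕜] Y 𝕜 p)) (hM.preimage (sgL 𝕜 p l).continuous) l
      (fun i => hW l i) (fun q => hZ l q) (hS l) u
  have h2 := lp.hasSum_single (E := fun _ : ℤ => X 𝕜) hp y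
  refine hM.mem_of_tendsto h2 (Eventually.of_forall fun s => ?_)
  exact M.sum_mem fun i _ => h1 i (y i)

theorem good_all (hp : p ≠ ⊤) (y : Y 𝕜 p) : Good (shiftE hp : Y 𝕜 p ≃L[𝕜] Y 𝕜 p) y := by
  refine total_Y hp (GoodSub (shiftE hp)) (good_closed _) (fun l i => ?_) (fun l q => ?_)
    (fun l => ?_) y
  · exact good_orbit hp (oW 𝕜 i) (oW_succ i) (64 ^ i) (oW_norm i) l
  · exact good_orbit hp (oZ 𝕜 q) (oZ_succ q) _ (oZ_norm q) l
  · exact good_star hp l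

theorem separableY (hp : p ≠ ⊤) : TopologicalSpace.SeparableSpace (Y 𝕜 p) := by
  set A : Set (Y 𝕜 p) := (Set.range fun t : ℤ × ℕ => sg p t.1 (ext (oW 𝕜 t.2) t.1)) ∪
    (Set.range fun t : ℤ × (ℕ × ℕ) => sg p t.1 (ext (oZ 𝕜 t.2) t.1)) ∪
    (Set.range fun l : ℤ => sg p l (ext (oS 𝕜) l)) with hA
  have hAc : A.Countable :=
    ((Set.countable_range _).union (Set.countable_range _)).union (Set.countable_range _)
  have h1 : TopologicalSpace.IsSeparable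
      (closure ((Submodule.span 𝕜 A : Submodule 𝕜 (Y 𝕜 p)) : Set (Y 𝕜 p))) :=
    (hAc.isSeparable.span (R := 𝕜)).closure
  rw [← TopologicalSpace.isSeparable_univ_iff]
  have h2 : (Set.univ : Set (Y 𝕜 p)) =
      closure ((Submodule.span 𝕜 A : Submodule 𝕜 (Y 𝕜 p)) : Set (Y 𝕜 p)) := by
    refine (Set.eq_univ_of_forall fun y => ?_).symm
    have h3 : ∀ x ∈ A, x ∈ (Submodule.span 𝕜 A).topologicalClosure := fun x hx =>
      Submodule.le_topologicalClosure _ (Submodule.subset_span hx)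
    exact total_Y hp (Submodule.span 𝕜 A).topologicalClosure
      (Submodule.isClosed_topologicalClosure _)
      (fun l i => h3 _ (Or.inl (Or.inl ⟨(l, i), rfl⟩)))
      (fun l q => h3 _ (Or.inl (Or.inr ⟨(l, q), rfl⟩)))
      (fun l => h3 _ (Or.inr ⟨l, rfl⟩)) y
  rw [h2]
  exact h1

theorem pow_apply (T : Y 𝕜 p ≃L[𝕜] Y 𝕜 p) (n : ℕ) (x : Y 𝕜 p) :
    (T ^ (n : ℤ) : Y 𝕜 p ≃L[𝕜] Y 𝕜 p) x = ((T : Y 𝕜 p →L[𝕜] Y 𝕜 p) ^ n) x := by
  induction n with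
  | zero => rw [pow_zero]; exact zpow_zero_apply T x
  | succ n ih =>
    have e1 : ((n + 1 : ℕ) : ℤ) = 1 + (n : ℤ) := by push_cast; ring
    rw [e1, zpow_add_apply, ih, zpow_one, pow_succ']
    rfl

theorem freq (hp : p ≠ ⊤) : FrequentlyHypercyclic (shiftF hp : Y 𝕜 p →L[𝕜] Y 𝕜 p) := by
  have := separableY (𝕜 := 𝕜) (p := p) hp
  obtain ⟨x, hx⟩ := fhc (shiftE hp : Y 𝕜 p ≃L[𝕜] Y 𝕜 p) (good_all hp)
  refine ⟨x, fun U hU hne => ?_⟩
  have h1 := hx U hU hne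
  have h2 : {n : ℕ | (shiftE hp ^ (n : ℤ) : Y 𝕜 p ≃L[𝕜] Y 𝕜 p) x ∈ U} =
      {n : ℕ | (shiftF hp ^ n) x ∈ U} := by
    ext n
    rw [Set.mem_ofPred_eq, Set.mem_ofPred_eq, pow_apply]
    rfl
  rw [← h2]
  exact h1

end Total

section Periodic

variable {𝕜 : Type} [RCLike 𝕜] {p : ℝ≥0∞} [Fact (1 ≤ p)]

theorem L_le (i : ℕ) (q : ℕ × ℕ) : |L i q| ≤ 2 ^ i := by
  unfold L
  split_ifs with h
  · rw [abs_neg, abs_of_pos (by positivity)]
    exact pow_le_pow_right₀ (by norm_num) h.1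
  · rw [abs_zero]; positivity

/-- The total of the middle coordinate number `i` after switching on. -/
noncomputable def tot (i : ℕ) (u : X 𝕜) : 𝕜 := u.1 + ∑' q, ((L i q : ℝ) : 𝕜) * u.2.2 q

/-- The forward orbit of a vector. -/
noncomputable def fwd (u : X 𝕜) : ℕ → X 𝕜
  | 0 => u
  | n + 1 => tauF 𝕜 (n + 1) (fwd u n)

theorem fwd_one (u : X 𝕜) (n : ℕ) : (fwd u n).1 = (((1 / 2 : ℝ) ^ n : ℝ) : 𝕜) * u.1 := by
  induction n with
  | zero =>
    rw [pow_zero, RCLike.ofReal_one, one_mul]; rfl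
  | succ n ih =>
    show ((1 / 2 : ℝ) : 𝕜) * (fwd u n).1 = _
    rw [ih, ← mul_assoc, ← RCLike.ofReal_mul, ← pow_succ']

theorem fwd_Z (u : X 𝕜) (q : ℕ × ℕ) (n : ℕ) :
    (fwd u n).2.2 q = ((aZ q n : ℝ) : 𝕜) * u.2.2 q := by
  induction n with
  | zero =>
    show u.2.2 q = ((1 : ℝ) : 𝕜) * _
    rw [RCLike.ofReal_one, one_mul]
  | succ n ih =>
    show (diagE (rZ (n + 1)) 2 (rZ_le (n + 1)) (fwd u n).2.2) q = _
    rw [diagE_apply, ih, ← mul_assoc, ← RCLike.ofReal_mul]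
    rfl

theorem fwd_W (u : X 𝕜) (i n : ℕ) :
    (fwd u n).2.1 i = ((aW i n : ℝ) : 𝕜) *
      (u.2.1 i + if 1 ≤ i ∧ i ≤ n then tot i u else 0) := by
  induction n with
  | zero =>
    rw [if_neg (by omega), add_zero]
    show u.2.1 i = ((1 : ℝ) : 𝕜) * _
    rw [RCLike.ofReal_one, one_mul]
  | succ n ih =>
    have h1 : (fwd u (n + 1)).2.1 i =
        (diagE (rW (n + 1)) 2 (rW_le (n + 1)) (fwd u n).2.1) i +
        (Lam 𝕜 (n + 1) (((1 / 2 : ℝ) : 𝕜) * (fwd u n).1)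
          (diagE (rZ (n + 1)) 2 (rZ_le (n + 1)) (fwd u n).2.2)) * (e 𝕜 (n + 1)) i := rfl
    rw [h1, diagE_apply, ih, ← mul_assoc, ← RCLike.ofReal_mul]
    have e0 : rW (n + 1) i * aW i n = aW i (n + 1) := rfl
    rw [e0]
    by_cases hi : i = n + 1
    · subst hi
      rw [if_neg (by omega), if_pos ⟨by omega, le_rfl⟩, e_self, add_zero, mul_one, mul_add]
      congr 1
      have h2 : ((1 / 2 : ℝ) : 𝕜) * (fwd u n).1 = (((1 / 2 : ℝ) ^ (n + 1) : ℝ) : 𝕜) * u.1 :=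
        fwd_one u (n + 1)
      rw [Lam, h2, funcE_apply, ← mul_assoc, ← RCLike.ofReal_mul, tot, mul_add, ← tsum_mul_left,
        aW_diag (n + 1) (n + 1) le_rfl, ← mul_pow]
      have h3 : ((1 : ℝ) / 2 * (1 / 2)) = 1 / 4 := by norm_num
      rw [h3]
      congr 1
      apply tsum_congr
      intro q
      have h4 := fwd_Z u q (n + 1)
      have h5 : (diagE (rZ (n + 1)) 2 (rZ_le (n + 1)) (fwd u n).2.2) q =
        (fwd u (n + 1)).2.2 q := rfl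
      rw [h5, h4, ← mul_assoc, ← RCLike.ofReal_mul, cf_aZ, aW_diag (n + 1) (n + 1) le_rfl,
        ← mul_assoc, ← RCLike.ofReal_mul, mul_comm (L (n + 1) q)]
    · rw [e_ne hi, mul_zero, add_zero]
      by_cases h2 : 1 ≤ i ∧ i ≤ n
      · rw [if_pos h2, if_pos ⟨h2.1, by omega⟩]
      · rw [if_neg h2, if_neg (by omega)]

theorem fwd_zero (u : X 𝕜) (hu : Tendsto (fun n => ‖fwd u n‖) atTop (𝓝 0)) : u.1 = 0 := by
  obtain ⟨C, hC⟩ := hu.bddAbove_range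
  have hC' : ∀ n, ‖fwd u n‖ ≤ C := fun n => hC ⟨n, rfl⟩
  have hC0 : 0 ≤ C := (norm_nonneg _).trans (hC' 0)
  have hz : ∀ q : ℕ × ℕ, ‖u.2.2 q‖ ≤ C * (1 / 16) ^ q.1 := by
    intro q
    have h1 : ‖(fwd u (6 * q.1)).2.2 q‖ ≤ C :=
      (apply_leE _ q).trans (((norm_snd_le _).trans (norm_snd_le _)).trans (hC' _))
    rw [fwd_Z, aZ_peak, norm_mul, RCLike.norm_ofReal, abs_of_pos (by positivity)] at h1
    have h2 : ((1 : ℝ) / 16) ^ q.1 * 16 ^ q.1 = 1 := by rw [← mul_pow]; norm_num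
    calc ‖u.2.2 q‖ = ((1 / 16) ^ q.1 * 16 ^ q.1) * ‖u.2.2 q‖ := by rw [h2, one_mul]
      _ = (1 / 16) ^ q.1 * (16 ^ q.1 * ‖u.2.2 q‖) := by ring
      _ ≤ (1 / 16) ^ q.1 * C := mul_le_mul_of_nonneg_left h1 (by positivity)
      _ = C * (1 / 16) ^ q.1 := by ring
  have hsumm : Summable fun q : ℕ × ℕ => ((1 : ℝ) / 2) ^ q.1 * (1 / 2) ^ q.2 :=
    summable_geometric_two.mul_of_nonneg summable_geometric_two
      (fun n => by positivity) (fun n => by positivity)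
  set D : ℝ := ∑' q : ℕ × ℕ, ((1 : ℝ) / 2) ^ q.1 * (1 / 2) ^ q.2 with hD
  have hterm : ∀ (i : ℕ) (q : ℕ × ℕ), ‖((L i q : ℝ) : 𝕜) * u.2.2 q‖ ≤
      (C * (1 / 2) ^ i) * ((1 / 2) ^ q.1 * (1 / 2) ^ q.2) := by
    intro i q
    rw [norm_mul, RCLike.norm_ofReal]
    by_cases h : q.2 ≤ i ∧ i ≤ q.1
    · have h1 : |L i q| = 2 ^ q.2 := by
        unfold L
        rw [if_pos h, abs_neg, abs_of_pos (by positivity)]
      rw [h1]
      have h2 : (2 : ℝ) ^ q.2 * (1 / 16) ^ q.1 ≤ (1 / 2) ^ i * ((1 / 2) ^ q.1 * (1 / 2) ^ q.2) := by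
        have h3 : ((1 : ℝ) / 16) ^ q.1 = (1 / 2) ^ q.1 * ((1 / 2) ^ q.1 * ((1 / 2) ^ q.1 *
            (1 / 2) ^ q.1)) := by
          rw [← mul_pow, ← mul_pow, ← mul_pow]; norm_num
        have h4 : ((1 : ℝ) / 2) ^ q.1 ≤ (1 / 2) ^ q.2 :=
          pow_le_pow_of_le_one (by norm_num) (by norm_num) (h.1.trans h.2)
        have h5 : ((1 : ℝ) / 2) ^ q.1 ≤ (1 / 2) ^ i :=
          pow_le_pow_of_le_one (by norm_num) (by norm_num) h.2
        have h6 : (2 : ℝ) ^ q.2 * (1 / 2) ^ q.2 = 1 := by rw [← mul_pow]; norm_num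
        have h7 : (0 : ℝ) < (1 / 2) ^ q.1 := by positivity
        have h8 : (0 : ℝ) < (1 / 2) ^ q.2 := by positivity
        have h9 : (0 : ℝ) < (1 / 2) ^ i := by positivity
        rw [h3]
        calc (2 : ℝ) ^ q.2 * ((1 / 2) ^ q.1 * ((1 / 2) ^ q.1 * ((1 / 2) ^ q.1 * (1 / 2) ^ q.1)))
            ≤ (2 : ℝ) ^ q.2 * ((1 / 2) ^ q.2 * ((1 / 2) ^ i * ((1 / 2) ^ q.1 * (1 / 2) ^ q.2))) := by
              gcongr
          _ = (2 ^ q.2 * (1 / 2) ^ q.2) * ((1 / 2) ^ i * ((1 / 2) ^ q.1 * (1 / 2) ^ q.2)) := by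
              ring
          _ = (1 / 2) ^ i * ((1 / 2) ^ q.1 * (1 / 2) ^ q.2) := by rw [h6, one_mul]
      calc (2 : ℝ) ^ q.2 * ‖u.2.2 q‖ ≤ 2 ^ q.2 * (C * (1 / 16) ^ q.1) :=
            mul_le_mul_of_nonneg_left (hz q) (by positivity)
        _ = C * (2 ^ q.2 * (1 / 16) ^ q.1) := by ring
        _ ≤ C * ((1 / 2) ^ i * ((1 / 2) ^ q.1 * (1 / 2) ^ q.2)) :=
            mul_le_mul_of_nonneg_left h2 hC0
        _ = _ := by ring
    · have h1 : L i q = 0 := by unfold L; rw [if_neg h]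
      rw [h1, abs_zero, zero_mul]
      positivity
  have htail : ∀ i : ℕ, ‖∑' q, ((L i q : ℝ) : 𝕜) * u.2.2 q‖ ≤ (C * (1 / 2) ^ i) * D := fun i =>
    tsum_of_norm_bounded (hsumm.hasSum.mul_left _) (hterm i)
  have hpeak : ∀ i : ℕ, 1 ≤ i → ‖u.1‖ ≤ ‖fwd u (3 * i)‖ + ‖u.2.1 i‖ + (C * (1 / 2) ^ i) * D := by
    intro i hi
    have h1 : ‖(fwd u (3 * i)).2.1 i‖ ≤ ‖fwd u (3 * i)‖ :=
      (apply_leE _ i).trans ((norm_fst_le _).trans (norm_snd_le _))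
    rw [fwd_W, aW_peak, RCLike.ofReal_one, one_mul, if_pos ⟨hi, by omega⟩, tot] at h1
    have h2 := htail i
    set s := ∑' q, ((L i q : ℝ) : 𝕜) * u.2.2 q with hs
    have h3 : u.1 = (u.2.1 i + (u.1 + s)) - u.2.1 i - s := by ring
    have h4 := norm_sub_le ((u.2.1 i + (u.1 + s)) - u.2.1 i) s
    have h5 := norm_sub_le (u.2.1 i + (u.1 + s)) (u.2.1 i)
    rw [← h3] at h4
    linarith
  have hlim : Tendsto (fun i : ℕ => ‖fwd u (3 * i)‖ + ‖u.2.1 i‖ + (C * (1 / 2) ^ i) * D) atTop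
      (𝓝 (0 + 0 + (C * 0) * D)) := by
    refine (Tendsto.add ?_ ?_).add ?_
    · exact hu.comp (tendsto_id.const_mul_atTop' (by norm_num))
    · exact (summE u.2.1).tendsto_atTop_zero
    · exact ((tendsto_pow_atTop_nhds_zero_of_lt_one (by norm_num)
        (by norm_num)).const_mul C).mul_const D
  rw [mul_zero, zero_mul, add_zero, add_zero] at hlim
  have h1 : ‖u.1‖ ≤ 0 := ge_of_tendsto hlim (eventually_atTop.2 ⟨1, hpeak⟩)
  exact norm_le_zero_iff.1 h1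

/-- Coordinates of a vector of `ℓ^p` tend to zero. -/
theorem coord_zero (hp : p ≠ ⊤) (x : Y 𝕜 p) : Tendsto (fun n : ℕ => ‖x (n : ℤ)‖) atTop (𝓝 0) := by
  have h1 := (lp.hasSum_single (E := fun _ : ℤ => X 𝕜) hp x).summable.tendsto_cofinite_zero.norm
  rw [norm_zero] at h1
  have h2 : (fun i : ℤ => ‖lp.single (E := fun _ : ℤ => X 𝕜) p i (x i)‖) = fun i => ‖x i‖ := by
    funext i
    exact sg_norm i (x i)
  rw [h2] at h1
  have h3 : Tendsto (fun n : ℕ => (n : ℤ)) atTop cofinite := by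
    rw [← Nat.cofinite_eq_atTop]
    exact Nat.cast_injective.tendsto_cofinite
  exact h1.comp h3

theorem fwd_eq (hp : p ≠ ⊤) (x : Y 𝕜 p) (n : ℕ) :
    ((shiftG hp ^ n) x) (n : ℤ) = fwd (x 0) n := by
  induction n with
  | zero => rfl
  | succ n ih =>
    have e1 : (shiftG hp ^ (n + 1)) x = shiftG hp ((shiftG hp ^ n) x) := by
      rw [pow_succ']; rfl
    rw [e1, shiftG_apply]
    have e2 : ((n + 1 : ℕ) : ℤ) - 1 = (n : ℤ) := by push_cast; ring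
    rw [e2, ih]
    have e3 : tau 𝕜 ((n + 1 : ℕ) : ℤ) = tauN 𝕜 (n + 1) := by
      unfold tau
      rw [if_neg (by omega)]
      rfl
    rw [e3]
    rfl

theorem per_gen {V : Type} [NormedAddCommGroup V] [NormedSpace 𝕜 V] (F G : V →L[𝕜] V)
    (h : ∀ y, G (F y) = y) (x : V) (m : ℕ) (hx : (F ^ m) x = x) (n : ℕ) :
    (G ^ n) x = (G ^ (n % m)) x := by
  have hinv' : ∀ (k : ℕ) (y : V), (G ^ k) ((F ^ k) y) = y := by
    intro k
    induction k with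
    | zero => intro y; rfl
    | succ k ih =>
      intro y
      rw [pow_succ, pow_succ', mul_apply_eq_comp, mul_apply_eq_comp, h, ih]
  have hGm : (G ^ m) x = x := by
    have := hinv' m x
    rwa [hx] at this
  have hper : ∀ t : ℕ, ((G ^ m) ^ t) x = x := by
    intro t
    induction t with
    | zero => rfl
    | succ t ih => rw [pow_succ, mul_apply_eq_comp, hGm, ih]
  conv_lhs => rw [← Nat.mod_add_div n m, pow_add, pow_mul]
  rw [mul_apply_eq_comp, hper]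

theorem inv_GF (hp : p ≠ ⊤) (y : Y 𝕜 p) : shiftG hp (shiftF hp y) = y := by
  ext n : 2
  rw [shiftG_apply, shiftF_apply, sub_add_cancel, ContinuousLinearEquiv.apply_symm_apply]

theorem decay (hp : p ≠ ⊤) (G : Y 𝕜 p →L[𝕜] Y 𝕜 p) (x : Y 𝕜 p) (m : ℕ) (hm : 1 ≤ m)
    (hmod : ∀ n : ℕ, (G ^ n) x = (G ^ (n % m)) x) :
    Tendsto (fun n : ℕ => ‖((G ^ n) x) (n : ℤ)‖) atTop (𝓝 0) := by
  have h1 : Tendsto (fun n : ℕ => ∑ j ∈ Finset.range m, ‖((G ^ j) x) (n : ℤ)‖) atTop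
      (𝓝 (∑ j ∈ Finset.range m, 0)) :=
    tendsto_finsetSum _ fun j _ => coord_zero hp _
  rw [Finset.sum_const_zero] at h1
  refine squeeze_zero (fun n => norm_nonneg _) (fun n => ?_) h1
  rw [hmod n]
  exact Finset.single_le_sum (f := fun j => ‖((G ^ j) x) (n : ℤ)‖)
    (fun j _ => norm_nonneg _) (Finset.mem_range.2 (Nat.mod_lt n (by omega)))

theorem per_zero (hp : p ≠ ⊤) (x : Y 𝕜 p) (m : ℕ) (hm : 1 ≤ m)
    (hx : (shiftF hp ^ m) x = x) : (x 0).1 = 0 := by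
  have hmod := per_gen (shiftF hp) (shiftG hp) (inv_GF hp) x m hx
  have h1 := decay hp (shiftG hp) x m hm hmod
  apply fwd_zero
  refine h1.congr fun n => ?_
  rw [fwd_eq hp x n]

theorem not_chaotic (hp : p ≠ ⊤) : ¬ DevaneyChaotic (shiftF hp : Y 𝕜 p →L[𝕜] Y 𝕜 p) := by
  rintro ⟨-, hd⟩
  obtain ⟨x, hx, hxd⟩ := Metric.dense_iff.1 hd (sg p 0 ((1, 0, 0) : X 𝕜)) 1 one_pos
  obtain ⟨m, hm, hxm⟩ := hxd
  have h0 := per_zero hp x m hm hxm
  rw [Metric.mem_ball, dist_eq_norm] at hx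
  have h1 : ‖(x - sg p 0 ((1, 0, 0) : X 𝕜)) 0‖ ≤ ‖x - sg p 0 ((1, 0, 0) : X 𝕜)‖ :=
    lp.norm_apply_le_norm (zero_lt_one.trans_le (Fact.out : 1 ≤ p)).ne' _ _
  have h2 : (x - sg p 0 ((1, 0, 0) : X 𝕜)) 0 = x 0 - ((1, 0, 0) : X 𝕜) := by
    rw [lp.coeFn_sub, Pi.sub_apply]
    unfold sg
    rw [lp.single_apply_self]
  rw [h2] at h1
  have h3 := norm_fst_le (x 0 - ((1, 0, 0) : X 𝕜))
  have h4 : (x 0 - ((1, 0, 0) : X 𝕜)).1 = -1 := by
    show (x 0).1 - 1 = -1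
    rw [h0, zero_sub]
  rw [h4, norm_neg, norm_one] at h3
  linarith

/-- Evaluation at the coordinate `0` is onto, so the coordinate space is separable. -/
theorem separableX : TopologicalSpace.SeparableSpace (X 𝕜) := by
  have : Fact (1 ≤ (1 : ℝ≥0∞)) := ⟨le_rfl⟩
  have hsep := separableY (𝕜 := 𝕜) (p := 1) (by norm_num)
  have hlip : LipschitzWith 1 (fun x : Y 𝕜 1 => x 0) := by
    refine LipschitzWith.of_dist_le_mul fun x y => ?_
    rw [NNReal.coe_one, one_mul, dist_eq_norm, dist_eq_norm]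
    have := lp.norm_apply_le_norm (E := fun _ : ℤ => X 𝕜) (p := 1) one_ne_zero (x - y) 0
    rwa [lp.coeFn_sub, Pi.sub_apply] at this
  have hsurj : Function.Surjective (fun x : Y 𝕜 1 => x 0) := fun u =>
    ⟨sg 1 0 u, by
      show (sg 1 0 u : Y 𝕜 1) 0 = u
      unfold sg
      rw [lp.single_apply_self]⟩
  exact hsurj.denseRange.separableSpace hlip.continuous

end Periodic

/-- **Negative answer to Q1.** For `𝕜 = ℝ` or `ℂ` and every `1 ≤ p < ∞` there are a separable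
Banach space `V` over `𝕜` and invertible operators `S n`, `n ∈ ℤ`, on `V` with
`sup_n max (‖S n‖, ‖(S n)⁻¹‖) < ∞` such that the shift operator
`(x n) ↦ (S (n + 1) (x (n + 1)))` of `ℓ^p(ℤ; V)` is frequently hypercyclic and not
Devaney chaotic. -/
theorem result (𝕜 : Type) [RCLike 𝕜] (p : ℝ≥0∞) [Fact (1 ≤ p)] (hp : p ≠ ⊤) :
    ∃ (V : Type) (_ : NormedAddCommGroup V) (_ : NormedSpace 𝕜 V) (_ : CompleteSpace V)
      (_ : TopologicalSpace.SeparableSpace V) (S : ℤ → V ≃L[𝕜] V) (C : ℝ)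
      (σ : SeqSp V p →L[𝕜] SeqSp V p),
      (∀ n, ‖(S n : V →L[𝕜] V)‖ ≤ C ∧ ‖((S n).symm : V →L[𝕜] V)‖ ≤ C) ∧
      IsShift S σ ∧ FrequentlyHypercyclic σ ∧ ¬ DevaneyChaotic σ := by
  refine ⟨X 𝕜, inferInstance, inferInstance, inferInstance, separableX,
    fun n => (tau 𝕜 n).symm, 12, shiftF hp, fun n => ⟨?_, ?_⟩, fun x n => rfl, freq hp,
    not_chaotic hp⟩
  · exact ContinuousLinearMap.opNorm_le_bound _ (by norm_num) fun u => tau_symm_norm n u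
  · exact ContinuousLinearMap.opNorm_le_bound _ (by norm_num) fun u => tau_norm n u

end Pool.Agent.Results.MP_7d5718_an.ShiftNotChaotic
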